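import Pool.Agent.H683UC.Lattice

set_option autoImplicit false

/-! # Pairs in the subgroup lattices of finite groups -/

namespace Pool.Agent.H683UC

open Subgroup

universe u

variable {G : Type u} [Group G]

theorem exists_min_normal [Finite G] {N : Subgroup G} (hN : N.Normal) (h0 : N ≠ ⊥) :
    ∃ N' ≤ N, N'.Normal ∧ N' ≠ ⊥ ∧ ∀ K ≤ N', K.Normal → K ≠ ⊥ → K = N' := by
  obtain ⟨N', ⟨h1, h2, h3⟩, h4⟩ := WellFounded.has_min (wellFounded_lt (α := Subgroup G))
    {K | K ≤ N ∧ K.Normal ∧ K ≠ ⊥} ⟨N, le_refl _, hN, h0⟩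
  refine ⟨N', h1, h2, h3, fun K hK hK2 hK3 => ?_⟩
  by_contra hne
  exact h4 K ⟨hK.trans h1, hK2, hK3⟩ (lt_of_le_of_ne hK hne)

theorem ded_of_inf_eq_bot {M N H : Subgroup G} [N.Normal] (h : M ⊓ N = ⊥) (hH : H ≤ M) :
    (H ⊔ N) ⊓ M = H := by
  apply SetLike.coe_injective
  rw [coe_inf, mul_normal, ← mul_inf_assoc H N M hH, inf_comm, h]
  simp

/-- If `M₀ ⊓ N = ⊥` and every subgroup of the minimal normal subgroup `N` that is normalised by `M₀`
is normal, then there is a pair. -/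
theorem pair_of_min [Finite G] {N M₀ : Subgroup G} [hN : N.Normal] (h0 : N ≠ ⊥)
    (hmin : ∀ K ≤ N, K.Normal → K ≠ ⊥ → K = N) (h1 : M₀ ⊓ N = ⊥)
    (h2 : ∀ U ≤ N, M₀ ≤ normalizer (U : Set G) → U.Normal) :
    ∃ M : Subgroup G, M₀ ≤ M ∧ M ⊓ N = ⊥ ∧ Pair M N := by
  obtain ⟨M, ⟨h3, h4⟩, h5⟩ := WellFounded.has_min (wellFounded_gt (α := Subgroup G))
    {K | M₀ ≤ K ∧ K ⊓ N = ⊥} ⟨M₀, le_refl _, h1⟩
  refine ⟨M, h3, h4, ⟨fun hle => ?_, fun H hH => ded_of_inf_eq_bot h4 hH, fun H hH => ?_⟩⟩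
  · rw [inf_eq_right.2 hle] at h4
    exact h0 h4
  · have hlt : M < H ⊔ M := lt_of_le_of_ne le_sup_right fun h6 => hH (h6 ▸ le_sup_left)
    set K := H ⊔ M with hK
    have h6 : K ⊓ N ≠ ⊥ := fun h7 => h5 K ⟨h3.trans hlt.le, h7⟩ hlt
    have h7 : K ≤ normalizer ((K ⊓ N : Subgroup G) : Set G) := by
      intro g hg
      rw [mem_normalizer_iff]
      intro x
      constructor
      · rintro ⟨hx1, hx2⟩
        exact ⟨K.mul_mem (K.mul_mem hg hx1) (K.inv_mem hg), hN.conj_mem x hx2 g⟩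
      · rintro ⟨hx1, hx2⟩
        have e1 : x = g⁻¹ * (g * x * g⁻¹) * g := by group
        refine ⟨?_, ?_⟩
        · have h8 := K.mul_mem (K.mul_mem (K.inv_mem hg) hx1) hg
          rwa [← e1] at h8
        · have h8 := hN.conj_mem _ hx2 g⁻¹
          rw [inv_inv, ← e1] at h8
          exact h8
    have h10 : K ⊓ N = N := hmin _ inf_le_right (h2 _ inf_le_right ((h3.trans hlt.le).trans h7)) h6
    exact inf_eq_right.1 h10

/-- If `M₀` and the centralizer of `N` generate the group, then a subgroup of `N` that is normalised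
by `M₀` is normal. -/
theorem normal_of_sup_centralizer {N M₀ : Subgroup G} [hN : N.Normal]
    (h2 : M₀ ⊔ centralizer (N : Set G) = ⊤) :
    ∀ U ≤ N, M₀ ≤ normalizer (U : Set G) → U.Normal := by
  intro U hU h7
  have h8 : centralizer (N : Set G) ≤ normalizer (U : Set G) := by
    intro g hg
    rw [mem_normalizer_iff]
    intro x
    have h9 : ∀ y ∈ N, g * y * g⁻¹ = y := by
      intro y hy
      have h10 := mem_centralizer_iff.1 hg y hy
      rw [← h10]
      group
    constructor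
    · intro hx2
      rw [h9 x (hU hx2)]
      exact hx2
    · intro hx2
      have h10 : g * x * g⁻¹ = x := by
        have h11 : x ∈ N := by
          have h12 := hN.conj_mem _ (hU hx2) g⁻¹
          have e1 : x = g⁻¹ * (g * x * g⁻¹) * g := by group
          rw [inv_inv, ← e1] at h12
          exact h12
        exact h9 x h11
      rw [h10] at hx2
      exact hx2
  have h9 : normalizer (U : Set G) = ⊤ := by
    rw [eq_top_iff, ← h2]
    exact sup_le h7 h8
  exact normalizer_eq_top_iff.1 h9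

/-- The same for a normal subgroup that need not be minimal. -/
theorem pair_of [Finite G] {N M₀ : Subgroup G} (hN : N.Normal) (h0 : N ≠ ⊥) (h1 : M₀ ⊓ N = ⊥)
    (h2 : ∀ U ≤ N, M₀ ≤ normalizer (U : Set G) → U.Normal) :
    ∃ M N' : Subgroup G, N' ≤ N ∧ N'.Normal ∧ M₀ ≤ M ∧ M ⊓ N' = ⊥ ∧ Pair M N' := by
  obtain ⟨N', h3, h4, h5, h6⟩ := exists_min_normal hN h0
  obtain ⟨M, h7, h8, h9⟩ := pair_of_min (hN := h4) h5 h6 (M₀ := M₀)
    (eq_bot_iff.2 ((inf_le_inf_left _ h3).trans h1.le)) (fun U hU => h2 U (hU.trans h3))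
  exact ⟨M, N', h3, h4, h7, h8, h9⟩

/-- A nontrivial solvable normal subgroup contains a nontrivial abelian normal `q`-subgroup. -/
theorem exists_normal_pgroup [Finite G] {K : Subgroup G} (hK : K.Normal)
    (hs : Group.IsSolvable K) (hK0 : K ≠ ⊥) :
    ∃ (q : ℕ) (E : Subgroup G), q.Prime ∧ E ≤ K ∧ E.Normal ∧ E ≠ ⊥ ∧ IsPGroup q E ∧
      ∀ x ∈ E, ∀ y ∈ E, x * y = y * x := by
  classical
  have hKn : Nontrivial K := (nontrivial_iff_ne_bot K).2 hK0
  obtain ⟨n, hn, hmin⟩ : ∃ n, derivedSeries K n = ⊥ ∧ ∀ m < n, derivedSeries K m ≠ ⊥ :=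
    ⟨Nat.find hs.solvable, Nat.find_spec hs.solvable, fun m hm => Nat.find_min hs.solvable hm⟩
  have hn0 : n ≠ 0 := by
    rintro rfl
    rw [derivedSeries_zero] at hn
    exact top_ne_bot hn
  obtain ⟨m, rfl⟩ := Nat.exists_eq_succ_of_ne_zero hn0
  set D : Subgroup G := (derivedSeries K m).map K.subtype with hD
  have hDne : D ≠ ⊥ := by
    rw [hD, Ne, map_eq_bot_iff_of_injective _ K.subtype_injective]
    exact hmin m (Nat.lt_succ_self m)
  have hDK : D ≤ K := map_subtype_le _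
  have hDn : D.Normal := by
    have := derivedSeries_characteristic K m
    infer_instance
  have hDc : ∀ x ∈ D, ∀ y ∈ D, x * y = y * x := by
    rw [Nat.succ_eq_add_one, derivedSeries_succ, commutator_eq_bot_iff_le_centralizer] at hn
    rintro _ ⟨x, hx, rfl⟩ _ ⟨y, hy, rfl⟩
    exact congrArg Subtype.val (mem_centralizer_iff.1 (hn hy) x hx)
  obtain ⟨q, hq, hqd⟩ : ∃ q, q.Prime ∧ q ∣ Nat.card D := by
    refine ⟨(Nat.card D).minFac, Nat.minFac_prime ?_, Nat.minFac_dvd _⟩
    rw [Ne, card_eq_one]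
    exact hDne
  let E : Subgroup G :=
    { carrier := {x | x ∈ D ∧ x ^ q = 1}
      one_mem' := ⟨D.one_mem, one_pow _⟩
      mul_mem' := by
        rintro x y ⟨hx, hx'⟩ ⟨hy, hy'⟩
        refine ⟨D.mul_mem hx hy, ?_⟩
        rw [(show Commute x y from hDc x hx y hy).mul_pow, hx', hy', one_mul]
      inv_mem' := by
        rintro x ⟨hx, hx'⟩
        exact ⟨D.inv_mem hx, by rw [inv_pow, hx', inv_one]⟩ }
  have hmem : ∀ x, x ∈ E ↔ x ∈ D ∧ x ^ q = 1 := fun x => Iff.rfl
  refine ⟨q, E, hq, fun x hx => hDK hx.1, ⟨fun x hx g => ?_⟩, ?_, ?_,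
    fun x hx y hy => hDc x hx.1 y hy.1⟩
  · rw [hmem] at hx ⊢
    refine ⟨hDn.conj_mem x hx.1 g, ?_⟩
    rw [conj_pow, hx.2, mul_one, mul_inv_cancel]
  · intro hE
    have : Fact q.Prime := ⟨hq⟩
    have := Fintype.ofFinite D
    obtain ⟨x, hx⟩ := exists_prime_orderOf_dvd_card (G := D) q (by rwa [← Nat.card_eq_fintype_card])
    have h1 : (x : G) ∈ E := by
      refine ⟨x.2, ?_⟩
      have h2 := pow_orderOf_eq_one x
      rw [hx] at h2
      exact_mod_cast congrArg Subtype.val h2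
    rw [hE, mem_bot] at h1
    have h2 : x = 1 := Subtype.ext h1
    rw [h2, orderOf_one] at hx
    exact hq.one_lt.ne hx
  · intro x
    refine ⟨1, ?_⟩
    rw [pow_one]
    exact Subtype.ext x.2.2

/-- For a solvable minimal normal subgroup `N` such that the group of automorphisms of `N` induced
by `G` is trivial or has a nontrivial solvable normal subgroup, there is `M₀`. -/
theorem exists_M0 [Finite G] {N : Subgroup G} (hN : N.Normal) (h0 : N ≠ ⊥)
    (hmin : ∀ K ≤ N, K.Normal → K ≠ ⊥ → K = N) (hsol : Group.IsSolvable N)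
    (hC : centralizer (N : Set G) = ⊤ ∨ ∃ D : Subgroup G, D.Normal ∧ ¬ D ≤ centralizer (N : Set G) ∧
      Group.IsSolvable (D.map (QuotientGroup.mk' (centralizer (N : Set G))))) :
    ∃ M₀ : Subgroup G, M₀ ⊓ N = ⊥ ∧ M₀ ⊔ centralizer (N : Set G) = ⊤ := by
  classical
  rcases hC with hC | ⟨D, hD, hCD, hDs⟩
  · exact ⟨⊥, bot_inf_eq _, by rw [hC]; exact sup_top_eq _⟩
  set C : Subgroup G := centralizer (N : Set G) with hCdef
  have hCn : C.Normal := by rw [hCdef]; infer_instance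
  -- `N` is an abelian `p`-group
  obtain ⟨p, hp, hNp⟩ : ∃ p, p.Prime ∧ IsPGroup p N := by
    obtain ⟨p, E, hp, hEN, hEn, hE0, hEp, -⟩ := exists_normal_pgroup hN hsol h0
    have h1 := hmin E hEN hEn hE0
    exact ⟨p, hp, h1 ▸ hEp⟩
  -- the `q`-group
  have hDn : (D.map (QuotientGroup.mk' C)).Normal :=
    hD.map _ (QuotientGroup.mk'_surjective C)
  have hDb : D.map (QuotientGroup.mk' C) ≠ ⊥ := by
    intro h1
    rw [Subgroup.map_eq_bot_iff, QuotientGroup.ker_mk'] at h1
    exact hCD h1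
  obtain ⟨q, E, hq, -, hEn, hE0, hEq, -⟩ := exists_normal_pgroup hDn hDs hDb
  have hpf : Fact p.Prime := ⟨hp⟩
  have hqf : Fact q.Prime := ⟨hq⟩
  set F : Subgroup G := E.comap (QuotientGroup.mk' C) with hF
  have hFn : F.Normal := by rw [hF]; infer_instance
  have hmapF : F.map (QuotientGroup.mk' C) = E :=
    map_comap_eq_self_of_surjective (QuotientGroup.mk'_surjective C) E
  have hFC : ¬ F ≤ C := by
    intro h1
    apply hE0
    rw [← hmapF, Subgroup.map_eq_bot_iff, QuotientGroup.ker_mk']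
    exact h1
  -- the Sylow subgroup
  obtain ⟨Q⟩ : Nonempty (Sylow q F) := inferInstance
  set Q' : Subgroup G := (Q : Subgroup F).map F.subtype with hQ'
  have hfr : normalizer (Q' : Set G) ⊔ F = ⊤ := Sylow.normalizer_sup_eq_top Q
  have hQp : IsPGroup q Q' := Q.isPGroup'.map F.subtype
  have hFle : F ≤ C ⊔ Q' := by
    rw [← relIndex_eq_one]
    have h1 : (C ⊔ Q').relIndex F ∣ C.relIndex F := relIndex_dvd_of_le_left F le_sup_left
    have h2 : (C ⊔ Q').relIndex F ∣ Q'.relIndex F := relIndex_dvd_of_le_left F le_sup_right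
    have h3 : C.relIndex F = Nat.card E := by
      have h4 := relIndex_ker F (QuotientGroup.mk' C)
      rw [QuotientGroup.ker_mk', hmapF] at h4
      exact h4
    have h4 : Q'.relIndex F = (Q : Subgroup F).index := by
      rw [relIndex, subgroupOf, hQ', comap_map_eq_self_of_injective F.subtype_injective]
    obtain ⟨k, hk⟩ := IsPGroup.iff_card.1 hEq
    rw [h3, hk] at h1
    rw [h4] at h2
    have h5 : ¬ q ∣ (Q : Subgroup F).index := Sylow.not_dvd_index Q
    obtain ⟨j, -, hj⟩ := (Nat.dvd_prime_pow hq).1 h1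
    rcases Nat.eq_zero_or_pos j with h6 | h6
    · rw [hj, h6, pow_zero]
    · exact absurd ((dvd_pow_self q h6.ne').trans (hj ▸ h2)) h5
  -- fixed points
  have hfix : N ⊓ centralizer (F : Set G) = ⊥ := by
    by_contra h1
    have h2 : (N ⊓ centralizer (F : Set G)).Normal := by infer_instance
    have h3 := hmin _ inf_le_left h2 h1
    apply hFC
    intro f hf
    rw [hCdef, mem_centralizer_iff]
    intro n hn
    have h4 : n ∈ centralizer (F : Set G) := (inf_eq_left.1 h3) hn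
    exact ((mem_centralizer_iff.1 h4) f hf).symm
  have hfixQ : ∀ x ∈ N, (∀ y ∈ Q', y * x = x * y) → x = 1 := by
    intro x hx hxy
    have h1 : C ⊔ Q' ≤ centralizer ({x} : Set G) := by
      refine sup_le (fun c hc => ?_) (fun y hy => ?_)
      · rw [mem_centralizer_iff]
        rintro _ rfl
        exact (mem_centralizer_iff.1 hc) _ hx
      · rw [mem_centralizer_iff]
        rintro _ rfl
        exact (hxy y hy).symm
    have h2 : x ∈ N ⊓ centralizer (F : Set G) := by
      refine ⟨hx, mem_centralizer_iff.2 fun f hf => ?_⟩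
      exact ((mem_centralizer_iff.1 (h1 (hFle hf))) x rfl).symm
    rw [hfix, mem_bot] at h2
    exact h2
  have hpq : p ≠ q := by
    intro hpq
    let _ : MulAction Q' N := MulAction.compHom N ((MulAut.conjNormal : G →* MulAut N).comp Q'.subtype)
    have hsm : ∀ (y : Q') (x : N), ((y • x : N) : G) = y * x * (y : G)⁻¹ := fun y x => rfl
    have h1 : (1 : N) ∈ MulAction.fixedPoints Q' N := by
      intro y
      apply Subtype.ext
      rw [hsm]
      simp
    have hNn : Nontrivial N := (nontrivial_iff_ne_bot N).2 h0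
    obtain ⟨k, hk0, hk⟩ := (IsPGroup.nontrivial_iff_card hNp).1 hNn
    obtain ⟨b, hb, hb1⟩ := hQp.exists_fixed_point_of_prime_dvd_card_of_fixed_point N
      (by rw [hk, ← hpq]; exact dvd_pow_self p hk0.ne') h1
    apply hb1
    symm
    apply Subtype.ext
    refine hfixQ b b.2 fun y hy => ?_
    have h2 := congrArg Subtype.val (hb ⟨y, hy⟩)
    rw [hsm] at h2
    change y * (b : G) * y⁻¹ = b at h2
    exact mul_inv_eq_iff_eq_mul.1 h2
  have hdis : Disjoint N Q' := IsPGroup.disjoint_of_ne p q hpq N Q' hNp hQp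
  refine ⟨normalizer (Q' : Set G), ?_, ?_⟩
  · rw [eq_bot_iff]
    rintro x ⟨hx1, hx2⟩
    rw [mem_bot]
    refine hfixQ x hx2 fun y hy => ?_
    have h1 : y * x * y⁻¹ * x⁻¹ ∈ N := N.mul_mem (hN.conj_mem x hx2 y) (N.inv_mem hx2)
    have h2 : y * x * y⁻¹ * x⁻¹ ∈ Q' := by
      have h3 : x * y⁻¹ * x⁻¹ ∈ Q' := (mem_normalizer_iff.1 hx1 y⁻¹).1 (Q'.inv_mem hy)
      have h4 := Q'.mul_mem hy h3
      have e1 : y * x * y⁻¹ * x⁻¹ = y * (x * y⁻¹ * x⁻¹) := by group
      rwa [e1]
    have h3 : y * x * y⁻¹ * x⁻¹ = 1 := by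
      have h4 := hdis.le_bot ⟨h1, h2⟩
      rwa [mem_bot] at h4
    have h4 := mul_inv_eq_one.1 h3
    exact mul_inv_eq_iff_eq_mul.1 h4
  · rw [eq_top_iff, ← hfr]
    refine sup_le le_sup_left (hFle.trans (sup_le le_sup_right ?_))
    exact le_normalizer.trans le_sup_left

/-- Every nontrivial finite solvable group has a pair. -/
theorem pair_solvable [Finite G] (hs : Group.IsSolvable G) (hG : Nontrivial G) :
    ∃ M N : Subgroup G, N.Normal ∧ M ⊓ N = ⊥ ∧ Pair M N := by
  have htop : (⊤ : Subgroup G) ≠ ⊥ := top_ne_bot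
  have hst : Group.IsSolvable (⊤ : Subgroup G) := by infer_instance
  obtain ⟨N, -, hN, h0, hmin⟩ := exists_min_normal (N := (⊤ : Subgroup G)) (by infer_instance) htop
  have hNs : Group.IsSolvable N := by infer_instance
  obtain ⟨M₀, h1, h2⟩ := exists_M0 hN h0 hmin hNs (by
    by_cases hC : centralizer (N : Set G) = ⊤
    · exact Or.inl hC
    · refine Or.inr ⟨⊤, by infer_instance, fun h1 => hC (eq_top_iff.2 h1), ?_⟩
      infer_instance)
  obtain ⟨M, -, h4, h5⟩ := pair_of_min h0 hmin h1 (normal_of_sup_centralizer h2)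
  exact ⟨M, N, hN, h4, h5⟩

end Pool.Agent.H683UC
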