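import Mathlib

set_option autoImplicit false

/-! # Frankl's conjecture from a pair of elements of a lattice -/

namespace Pool.Agent.H683UC

/-- `z` is not below `m`, the interval below `m` is embedded by `h ↦ h ⊔ z`, and every element
that is not below `m` joins `m` to an element above `z`. -/
structure Pair {L : Type*} [Lattice L] (m z : L) : Prop where
  nle : ¬ z ≤ m
  ded : ∀ h ≤ m, (h ⊔ z) ⊓ m = h
  cov : ∀ h, ¬ h ≤ m → z ≤ h ⊔ m

variable {L : Type*} [Lattice L] {m z : L}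

theorem Pair.infIrred (h : Pair m z) : InfIrred m := by
  refine ⟨fun hmax => h.nle (le_trans le_sup_right (hmax (le_sup_left : m ≤ m ⊔ z))), ?_⟩
  intro a b hab
  by_contra hcon
  push Not at hcon
  have ha : ¬ a ≤ m := fun h1 => hcon.1 (le_antisymm h1 (hab ▸ inf_le_left))
  have hb : ¬ b ≤ m := fun h1 => hcon.2 (le_antisymm h1 (hab ▸ inf_le_right))
  have h1 : z ≤ a := by
    have h2 := h.cov a ha
    rwa [sup_eq_left.2 (hab ▸ inf_le_left : m ≤ a)] at h2
  have h2 : z ≤ b := by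
    have h2 := h.cov b hb
    rwa [sup_eq_left.2 (hab ▸ inf_le_right : m ≤ b)] at h2
  exact h.nle (hab ▸ le_inf h1 h2)

theorem Pair.not_le_sup (h : Pair m z) (k : L) : ¬ k ⊔ z ≤ m :=
  fun h1 => h.nle (le_trans le_sup_right h1)

/-- the embedding of the interval below `m` into its complement -/
def Pair.emb (h : Pair m z) : {k : L // k ≤ m} ↪ {k : L // ¬ k ≤ m} where
  toFun k := ⟨k.1 ⊔ z, h.not_le_sup k.1⟩
  inj' a b hab := by
    have h1 : a.1 ⊔ z = b.1 ⊔ z := congrArg Subtype.val hab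
    have h2 := h.ded a.1 a.2
    rw [h1, h.ded b.1 b.2] at h2
    exact Subtype.ext h2.symm

theorem card_split [Finite L] (m : L) :
    Nat.card L = Nat.card {k : L // k ≤ m} + Nat.card {k : L // ¬ k ≤ m} := by
  classical
  rw [← Nat.card_sum]
  exact Nat.card_congr (Equiv.sumCompl (fun k : L => k ≤ m)).symm

theorem Pair.card_le [Finite L] (h : Pair m z) :
    Nat.card {k : L // k ≤ m} ≤ Nat.card {k : L // ¬ k ≤ m} :=
  Finite.card_le_of_embedding h.emb

theorem Pair.half [Finite L] (h : Pair m z) : 2 * Nat.card {k : L // k ≤ m} ≤ Nat.card L := by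
  have h1 := card_split m
  have h2 := h.card_le
  omega

variable {α : Type*} [DecidableEq α] {A : Finset (Finset α)}

/-- the element which belongs to the pair -/
theorem Pair.exists_elt (h : Pair m z) (hA : ∀ X ∈ A, ∀ Y ∈ A, X ∪ Y ∈ A)
    (e : {X // X ∈ A} ≃o L) :
    ∃ i : α, ∀ X : {X // X ∈ A}, i ∈ X.1 ↔ ¬ e X ≤ m := by
  obtain ⟨Xm, hXm⟩ : ∃ Xm, e Xm = m := e.surjective m
  obtain ⟨Xz, hXz⟩ : ∃ Xz, e Xz = z := e.surjective z
  have h1 : ¬ Xz.1 ⊆ Xm.1 := by
    intro h1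
    have h2 : Xz ≤ Xm := h1
    have h3 := e.monotone h2
    rw [hXm, hXz] at h3
    exact h.nle h3
  obtain ⟨i, hi, hi'⟩ := Finset.not_subset.1 h1
  refine ⟨i, fun X => ⟨fun hiX hle => ?_, fun hle => ?_⟩⟩
  · rw [← hXm] at hle
    have h2 : X ≤ Xm := (e.le_iff_le).1 hle
    exact hi' (h2 hiX)
  · have h2 : z ≤ e X ⊔ m := h.cov _ hle
    let Y : {X // X ∈ A} := ⟨X.1 ∪ Xm.1, hA _ X.2 _ Xm.2⟩
    have h3 : e X ≤ e Y := e.monotone (show X.1 ⊆ X.1 ∪ Xm.1 from Finset.subset_union_left)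
    have h4 : m ≤ e Y := by
      rw [← hXm]
      exact e.monotone (show Xm.1 ⊆ X.1 ∪ Xm.1 from Finset.subset_union_right)
    have h5 : e Xz ≤ e Y := by
      rw [hXz]
      exact h2.trans (sup_le h3 h4)
    have h6 : Xz.1 ⊆ X.1 ∪ Xm.1 := (e.le_iff_le).1 h5
    rcases Finset.mem_union.1 (h6 hi) with h7 | h7
    · exact h7
    · exact absurd h7 hi'

omit [DecidableEq α] in
theorem card_family [Finite L] (e : {X // X ∈ A} ≃o L) : A.card = Nat.card L := by
  rw [← Nat.card_congr e.toEquiv]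
  simp

theorem card_filter [Finite L] (e : {X // X ∈ A} ≃o L) {i : α} {P : L → Prop}
    (hi : ∀ X : {X // X ∈ A}, i ∈ X.1 ↔ P (e X)) :
    (A.filter fun X => i ∈ X).card = Nat.card {k : L // P k} := by
  have h1 : (A.filter fun X => i ∈ X).card = Nat.card {X // X ∈ A.filter fun X => i ∈ X} :=
    (Nat.card_eq_fintype_card.trans (Fintype.card_coe _)).symm
  rw [h1]
  refine Nat.card_congr ⟨fun X => ⟨e ⟨X.1, (Finset.mem_filter.1 X.2).1⟩,
      (hi ⟨X.1, _⟩).1 (Finset.mem_filter.1 X.2).2⟩,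
    fun k => ⟨(e.symm k.1).1, Finset.mem_filter.2 ⟨(e.symm k.1).2, (hi _).2 (by
      rw [OrderIso.apply_symm_apply]; exact k.2)⟩⟩, fun X => ?_, fun k => ?_⟩
  · apply Subtype.ext
    simp
  · apply Subtype.ext
    simp

/-- Frankl's conjecture for union-closed families whose lattice has a pair. -/
theorem Pair.frankl [Finite L] (h : Pair m z) (hA : ∀ X ∈ A, ∀ Y ∈ A, X ∪ Y ∈ A)
    (e : {X // X ∈ A} ≃o L) : ∃ i : α, A.card ≤ 2 * (A.filter fun X => i ∈ X).card := by
  obtain ⟨i, hi⟩ := h.exists_elt hA e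
  refine ⟨i, ?_⟩
  rw [card_family e, card_filter (P := fun k => ¬ k ≤ m) e hi]
  have h1 := card_split m
  have h2 := h.card_le
  omega

end Pool.Agent.H683UC
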