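import Pool.Agent.H683UC.Poset

set_option autoImplicit false

/-! # Poonen's conjecture for lattices whose lower intervals have left modular atoms -/

namespace Pool.Agent.H683UC

open Finset

universe u w

variable {Λ : Type u} [Lattice Λ] [OrderBot Λ]

theorem ppair_modular [Finite Λ]
    {j z : Λ} (hz : IsAtom z) (hzj : z ≤ j)
    (hl : ∀ h k : Λ, h ≤ k → k ≤ j → (h ⊔ z) ⊓ k = h ⊔ (z ⊓ k)) :
    ∃ m z : {k : Λ // k ≤ j}, PPair m z := by
  classical
  obtain ⟨M, hM⟩ := (Set.toFinite {k : Λ | k ≤ j ∧ ¬ z ≤ k}).exists_maximal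
    ⟨⊥, bot_le, fun h => hz.1 (le_bot_iff.1 h)⟩
  obtain ⟨hMj, hzM⟩ : M ≤ j ∧ ¬ z ≤ M := hM.prop
  have hcov : ∀ k, k ≤ j → M < k → z ≤ k := by
    intro k hk hlt
    by_contra h
    exact absurd (hM.le_of_ge ⟨hk, h⟩ hlt.le) (not_le_of_gt hlt)
  have hbot : z ⊓ M = ⊥ := by
    rcases hz.le_iff.1 (inf_le_left : z ⊓ M ≤ z) with h | h
    · exact h
    · exact absurd (inf_eq_left.1 h) hzM
  have hkey : ∀ h, h ≤ M → (h ⊔ z) ⊓ M = h := by
    intro h hh
    rw [hl h M hh hMj, hbot, sup_bot_eq]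
  let f : {k : {k : Λ // k ≤ j} // k ≤ ⟨M, hMj⟩} → {k : {k : Λ // k ≤ j} // ¬ k ≤ ⟨M, hMj⟩} :=
    fun k => ⟨⟨k.1.1 ⊔ z, sup_le k.1.2 hzj⟩, fun h => hzM (le_sup_right.trans h)⟩
  have hf : ∀ k, (f k).1.1 ⊓ M = k.1.1 := fun k => hkey _ k.2
  have hinj : Function.Injective f := by
    intro a b hab
    apply Subtype.ext
    apply Subtype.ext
    rw [← hf a, ← hf b, hab]
  refine ⟨⟨M, hMj⟩, ⟨z, hzj⟩, hzM, fun k hk => hcov k.1 k.2 hk, ?_, fun hcard => ?_⟩
  · exact Nat.card_le_card_of_injective f hinj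
  · have hbij := hinj.bijective_of_nat_card_le hcard
    intro k hk
    obtain ⟨h, hh⟩ := hbij.2 ⟨k, hk⟩
    have h5 : h.1.1 ⊔ z = k.1 := congrArg (fun k => k.1.1) hh
    refine ⟨h.1, h.2, ?_, ?_⟩
    · rintro a (rfl | rfl)
      · change h.1.1 ≤ k.1
        rw [← h5]
        exact le_sup_left
      · change z ≤ k.1
        rw [← h5]
        exact le_sup_right
    · intro a ha
      change k.1 ≤ a.1
      rw [← h5]
      exact sup_le (ha (Set.mem_insert _ _)) (ha (Set.mem_insert_of_mem _ rfl))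

/-- a lower interval of a lower interval -/
def lowerIsoOfLe {M j : Λ} (hM : M ≤ j) :
    {k : {k : Λ // k ≤ j} // k ≤ ⟨M, hM⟩} ≃o {k : Λ // k ≤ M} where
  toFun k := ⟨k.1.1, k.2⟩
  invFun k := ⟨⟨k.1, k.2.trans hM⟩, k.2⟩
  left_inv _ := rfl
  right_inv _ := rfl
  map_rel_iff' := Iff.rfl

theorem poonen_modular [Finite Λ]
    (hmod : ∀ m : Λ, m ≠ ⊥ → ∃ z, IsAtom z ∧ z ≤ m ∧
      ∀ h k : Λ, h ≤ k → k ≤ m → (h ⊔ z) ⊓ k = h ⊔ (z ⊓ k)) :
    ∀ (j : Λ) (α : Type w) [DecidableEq α]
    (A : Finset (Finset α)), (∀ X ∈ A, ∀ Y ∈ A, X ∪ Y ∈ A) →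
      Nonempty ({X // X ∈ A} ≃o {k : Λ // k ≤ j}) → Sep A → Low A →
      A = (A.sup id).powerset := by
  intro j
  induction j using WellFoundedLT.induction with
  | ind j ih =>
    rintro α _ A hA ⟨e⟩ hsep hlow
    by_cases hj : j = ⊥
    · subst hj
      have h1 : Subsingleton {k : Λ // k ≤ ⊥} :=
        ⟨fun a b => Subtype.ext ((le_bot_iff.1 a.2).trans (le_bot_iff.1 b.2).symm)⟩
      have h2 : Nonempty {k : Λ // k ≤ ⊥} := ⟨⟨⊥, le_rfl⟩⟩
      exact powerset_of_subsingleton e hlow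
    · obtain ⟨z, hz, hzj, hl⟩ := hmod j hj
      obtain ⟨m, z, h⟩ := ppair_modular hz hzj hl
      obtain ⟨i, A₀, h1, ⟨e'⟩, h3, h4, h5⟩ := h.step hA e hsep hlow
      have hlt : m.1 < j := lt_of_le_of_ne m.2 fun h6 => h.nle (by
        change z.1 ≤ m.1
        rw [h6]
        exact z.2)
      exact powerset_of_halves h5 (ih m.1 hlt α A₀ h1 ⟨e'.trans (lowerIsoOfLe m.2)⟩ h3 h4)

/-- the whole lattice as a lower interval -/
def lowerTopIso {t : Λ} (ht : ∀ k, k ≤ t) : Λ ≃o {k : Λ // k ≤ t} where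
  toFun k := ⟨k, ht k⟩
  invFun k := k.1
  left_inv _ := rfl
  right_inv _ := rfl
  map_rel_iff' := Iff.rfl

variable {α : Type w} [DecidableEq α] {A : Finset (Finset α)}

theorem sup_insert_empty (A : Finset (Finset α)) : (insert ∅ A).sup id = A.sup id := by
  rw [Finset.sup_insert]
  simp

/-- The strict form for a family from the one for the family together with the empty set. -/
theorem poonen_of_insert_empty (hne : A.Nonempty)
    (hsep : ∀ x ∈ A.sup id, ∀ y ∈ A.sup id, x ≠ y →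
      ∃ S ∈ A, (x ∈ S ∧ y ∉ S) ∨ (y ∈ S ∧ x ∉ S))
    (hpow : A ≠ (A.sup id).powerset)
    (h : Sep (insert ∅ A) → Low (insert ∅ A) → insert ∅ A = ((insert ∅ A).sup id).powerset) :
    ∃ x ∈ A.sup id, A.card < 2 * (A.filter fun S => x ∈ S).card := by
  by_contra hcon
  push Not at hcon
  have hfil : ∀ x, ((insert ∅ A).filter fun S => x ∈ S) = A.filter fun S => x ∈ S := by
    intro x
    rw [Finset.filter_insert]
    simp
  have h1 : Sep (insert ∅ A) := by
    intro x hx y hy hxy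
    rw [sup_insert_empty] at hx hy
    obtain ⟨S, hS, h2⟩ := hsep x hx y hy hxy
    exact ⟨S, Finset.mem_insert_of_mem hS, h2⟩
  have h2 : Low (insert ∅ A) := by
    intro x hx
    rw [sup_insert_empty] at hx
    rw [hfil]
    exact (hcon x hx).trans (Finset.card_le_card (Finset.subset_insert _ _))
  have h3 := h h1 h2
  rw [sup_insert_empty] at h3
  by_cases h0 : (∅ : Finset α) ∈ A
  · rw [Finset.insert_eq_of_mem h0] at h3
    exact hpow h3
  · obtain ⟨X, hX⟩ := hne
    have hX0 : X ≠ ∅ := fun h4 => h0 (h4 ▸ hX)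
    obtain ⟨x, hx⟩ := Finset.nonempty_iff_ne_empty.2 hX0
    have hxU : x ∈ A.sup id := Finset.mem_sup.2 ⟨X, hX, hx⟩
    have h4 := hcon x hxU
    have h5 : (insert ∅ A).card = A.card + 1 := Finset.card_insert_of_notMem h0
    have h6 : (insert ∅ A).card = 2 * (A.filter fun S => x ∈ S).card := by
      rw [← hfil x, h3]
      set U := A.sup id with hU
      have h7 : (U.powerset.filter fun S => x ∈ S) = (U.erase x).powerset.image (insert x) := by
        ext S
        rw [Finset.mem_filter, Finset.mem_image, Finset.mem_powerset]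
        constructor
        · rintro ⟨h8, h9⟩
          refine ⟨S.erase x, Finset.mem_powerset.2 (Finset.erase_subset_erase _ h8),
            Finset.insert_erase h9⟩
        · rintro ⟨T, hT, rfl⟩
          rw [Finset.mem_powerset] at hT
          exact ⟨Finset.insert_subset hxU (hT.trans (Finset.erase_subset _ _)),
            Finset.mem_insert_self _ _⟩
      have h8 : Set.InjOn (insert x) ((U.erase x).powerset : Set (Finset α)) := by
        intro S hS T hT hST
        have h9 : x ∉ S := fun h9 =>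
          Finset.notMem_erase x U (Finset.mem_powerset.1 (Finset.mem_coe.1 hS) h9)
        have h10 : x ∉ T := fun h10 =>
          Finset.notMem_erase x U (Finset.mem_powerset.1 (Finset.mem_coe.1 hT) h10)
        have h11 := congrArg (fun S => Finset.erase S x) hST
        simp only [Finset.erase_insert h9, Finset.erase_insert h10] at h11
        exact h11
      rw [h7, Finset.card_image_of_injOn h8, Finset.card_powerset, Finset.card_powerset,
        Finset.card_erase_of_mem hxU]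
      have h9 : 0 < U.card := Finset.card_pos.2 ⟨x, hxU⟩
      obtain ⟨n, hn⟩ : ∃ n, U.card = n + 1 := ⟨U.card - 1, by omega⟩
      rw [hn, pow_succ]
      simp [mul_comm]
    omega

end Pool.Agent.H683UC
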