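import Pool.Agent.H683UC.Group

set_option autoImplicit false

/-! # Poonen's strict form for lattices with pairs -/

namespace Pool.Agent.H683UC

open Finset

universe u w

/-- any two elements of the union are separated by a member -/
def Sep {α : Type w} [DecidableEq α] (A : Finset (Finset α)) : Prop :=
  ∀ x ∈ A.sup id, ∀ y ∈ A.sup id, x ≠ y → ∃ S ∈ A, (x ∈ S ∧ y ∉ S) ∨ (y ∈ S ∧ x ∉ S)

/-- every element of the union lies in at most half of the members -/
def Low {α : Type w} [DecidableEq α] (A : Finset (Finset α)) : Prop :=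
  ∀ x ∈ A.sup id, 2 * (A.filter fun X => x ∈ X).card ≤ A.card

variable {L : Type u} [Lattice L] {m z : L} {α : Type w} [DecidableEq α] {A : Finset (Finset α)}

theorem iso_union (hA : ∀ X ∈ A, ∀ Y ∈ A, X ∪ Y ∈ A) (e : {X // X ∈ A} ≃o L)
    (X Y : {X // X ∈ A}) : e ⟨X.1 ∪ Y.1, hA _ X.2 _ Y.2⟩ = e X ⊔ e Y := by
  apply le_antisymm
  · rw [← e.le_symm_apply]
    have h1 : X ≤ e.symm (e X ⊔ e Y) := (e.le_symm_apply).2 le_sup_left
    have h2 : Y ≤ e.symm (e X ⊔ e Y) := (e.le_symm_apply).2 le_sup_right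
    exact Finset.union_subset h1 h2
  · exact sup_le (e.monotone (show X.1 ⊆ X.1 ∪ Y.1 from Finset.subset_union_left))
      (e.monotone (show Y.1 ⊆ X.1 ∪ Y.1 from Finset.subset_union_right))

theorem Pair.step [Finite L] (h : Pair m z) (hA : ∀ X ∈ A, ∀ Y ∈ A, X ∪ Y ∈ A)
    (e : {X // X ∈ A} ≃o L) (hs : Sep A) (hl : Low A) :
    ∃ (i : α) (A₀ : Finset (Finset α)), (∀ X ∈ A₀, ∀ Y ∈ A₀, X ∪ Y ∈ A₀) ∧
      Nonempty ({X // X ∈ A₀} ≃o {k : L // k ≤ m}) ∧ Sep A₀ ∧ Low A₀ ∧
      A = A₀ ∪ A₀.image (insert i) := by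
  obtain ⟨i, hi⟩ := h.exists_elt hA e
  set Xz : {X // X ∈ A} := e.symm z with hXz
  have hez : e Xz = z := e.apply_symm_apply z
  have hiz : i ∈ Xz.1 := (hi Xz).2 (by rw [hez]; exact h.nle)
  have hiU : i ∈ A.sup id := Finset.mem_sup.2 ⟨Xz.1, Xz.2, hiz⟩
  have hci := card_filter (P := fun k => ¬ k ≤ m) e hi
  have hc := card_family e
  have hsp := card_split (L := L) m
  have hle := h.card_le
  have hlow := hl i hiU
  have hcard : A.card = 2 * (A.filter fun X => i ∈ X).card := by omega
  have hbij : Function.Bijective h.emb :=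
    h.emb.injective.bijective_of_nat_card_le (by omega)
  have hsurj : ∀ k, ¬ k ≤ m → ∃ k' ≤ m, k' ⊔ z = k := by
    intro k hk
    obtain ⟨k', hk'⟩ := hbij.2 ⟨k, hk⟩
    exact ⟨k'.1, k'.2, congrArg Subtype.val hk'⟩
  -- the member of `z` is a singleton
  have hsing : Xz.1 = {i} := by
    rw [Finset.eq_singleton_iff_unique_mem]
    refine ⟨hiz, fun j hj => ?_⟩
    have hjU : j ∈ A.sup id := Finset.mem_sup.2 ⟨Xz.1, Xz.2, hj⟩
    have hsub : (A.filter fun X => i ∈ X) ⊆ (A.filter fun X => j ∈ X) := by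
      intro X hX
      rw [Finset.mem_filter] at hX ⊢
      refine ⟨hX.1, ?_⟩
      obtain ⟨k', -, hk'⟩ := hsurj _ ((hi ⟨X, hX.1⟩).1 hX.2)
      have h1 : z ≤ e ⟨X, hX.1⟩ := hk' ▸ le_sup_right
      rw [← hez] at h1
      exact (e.le_iff_le.1 h1) hj
    have heq : (A.filter fun X => i ∈ X) = (A.filter fun X => j ∈ X) := by
      apply Finset.eq_of_subset_of_card_le hsub
      have := hl j hjU
      omega
    by_contra hne
    obtain ⟨S, hS, h1⟩ := hs i hiU j hjU (Ne.symm hne)
    have h2 : i ∈ S ↔ j ∈ S := by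
      have h3 : S ∈ (A.filter fun X => i ∈ X) ↔ S ∈ (A.filter fun X => j ∈ X) := by rw [heq]
      rw [Finset.mem_filter, Finset.mem_filter] at h3
      exact ⟨fun h4 => (h3.1 ⟨hS, h4⟩).2, fun h4 => (h3.2 ⟨hS, h4⟩).2⟩
    rcases h1 with ⟨h1, h3⟩ | ⟨h1, h3⟩
    · exact h3 (h2.1 h1)
    · exact h3 (h2.2 h1)
  set A₀ : Finset (Finset α) := A.filter fun X => i ∉ X with hA₀
  have hmem : ∀ X, X ∈ A₀ ↔ X ∈ A ∧ i ∉ X := fun X => by rw [hA₀, Finset.mem_filter]
  have hins : ∀ X ∈ A₀, insert i X ∈ A := by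
    intro X hX
    have h1 := hA X ((hmem X).1 hX).1 Xz.1 Xz.2
    rw [hsing, Finset.union_comm] at h1
    exact h1
  have hdel : ∀ X ∈ A, i ∈ X → ∃ X' ∈ A₀, insert i X' = X := by
    intro X hX hiX
    obtain ⟨k', hk1, hk'⟩ := hsurj _ ((hi ⟨X, hX⟩).1 hiX)
    set X' : {X // X ∈ A} := e.symm k' with hX'
    have heX' : e X' = k' := e.apply_symm_apply k'
    have h1 := iso_union hA e X' Xz
    rw [heX', hez, hk'] at h1
    have h2 : X'.1 ∪ Xz.1 = X := congrArg Subtype.val (e.injective h1)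
    refine ⟨X'.1, (hmem _).2 ⟨X'.2, fun h3 => ?_⟩, ?_⟩
    · exact ((hi X').1 h3) (heX' ▸ hk1)
    · rw [← h2, hsing, Finset.union_comm]
      rfl
  have hdec : A = A₀ ∪ A₀.image (insert i) := by
    ext X
    rw [Finset.mem_union, Finset.mem_image]
    constructor
    · intro hX
      by_cases h1 : i ∈ X
      · exact Or.inr (hdel X hX h1)
      · exact Or.inl ((hmem X).2 ⟨hX, h1⟩)
    · rintro (hX | ⟨X', hX', rfl⟩)
      · exact ((hmem X).1 hX).1
      · exact hins X' hX'
  have hinj : Set.InjOn (insert i) (A₀ : Set (Finset α)) := by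
    intro X hX Y hY hXY
    have h1 := ((hmem X).1 hX).2
    have h2 := ((hmem Y).1 hY).2
    have h3 := congrArg (fun S => Finset.erase S i) hXY
    simp only [Finset.erase_insert h1, Finset.erase_insert h2] at h3
    exact h3
  have hdisj : Disjoint A₀ (A₀.image (insert i)) := by
    rw [Finset.disjoint_left]
    intro X hX hX2
    obtain ⟨X', -, rfl⟩ := Finset.mem_image.1 hX2
    exact ((hmem _).1 hX).2 (Finset.mem_insert_self _ _)
  have hcA : A.card = 2 * A₀.card := by
    rw [hdec, Finset.card_union_of_disjoint hdisj, Finset.card_image_of_injOn hinj]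
    omega
  have hfr : ∀ x, x ≠ i → (A.filter fun X => x ∈ X).card = 2 * (A₀.filter fun X => x ∈ X).card := by
    intro x hx
    have h1 : (A.filter fun X => x ∈ X) = (A₀.filter fun X => x ∈ X) ∪
        (A₀.filter fun X => x ∈ X).image (insert i) := by
      rw [hdec, Finset.filter_union]
      congr 1
      ext X
      rw [Finset.mem_filter, Finset.mem_image, Finset.mem_image]
      constructor
      · rintro ⟨⟨X', hX', rfl⟩, hX2⟩
        exact ⟨X', Finset.mem_filter.2 ⟨hX', (Finset.mem_insert.1 hX2).resolve_left hx⟩, rfl⟩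
      · rintro ⟨X', hX', rfl⟩
        rw [Finset.mem_filter] at hX'
        exact ⟨⟨X', hX'.1, rfl⟩, Finset.mem_insert_of_mem hX'.2⟩
    have h2 : Disjoint (A₀.filter fun X => x ∈ X) ((A₀.filter fun X => x ∈ X).image (insert i)) :=
      Disjoint.mono (Finset.filter_subset _ _) (Finset.image_subset_image (Finset.filter_subset _ _))
        hdisj
    rw [h1, Finset.card_union_of_disjoint h2, Finset.card_image_of_injOn
      (hinj.mono (by exact_mod_cast Finset.filter_subset _ _))]
    omega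
  have hU : ∀ x ∈ A₀.sup id, x ∈ A.sup id ∧ x ≠ i := by
    intro x hx
    obtain ⟨X, hX, hxX⟩ := Finset.mem_sup.1 hx
    refine ⟨Finset.mem_sup.2 ⟨X, ((hmem X).1 hX).1, hxX⟩, ?_⟩
    rintro rfl
    exact ((hmem X).1 hX).2 hxX
  refine ⟨i, A₀, ?_, ?_, ?_, ?_, hdec⟩
  · intro X hX Y hY
    rw [hmem] at hX hY ⊢
    refine ⟨hA _ hX.1 _ hY.1, ?_⟩
    rw [Finset.mem_union]
    exact fun h1 => h1.elim hX.2 hY.2
  · have hk : ∀ X : {X // X ∈ A₀}, e ⟨X.1, ((hmem _).1 X.2).1⟩ ≤ m := by
      intro X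
      by_contra h1
      exact ((hmem _).1 X.2).2 ((hi _).2 h1)
    have hk2 : ∀ k : {k : L // k ≤ m}, (e.symm k.1).1 ∈ A₀ := by
      intro k
      refine (hmem _).2 ⟨(e.symm k.1).2, fun h1 => ?_⟩
      have h2 := (hi (e.symm k.1)).1 h1
      rw [e.apply_symm_apply] at h2
      exact h2 k.2
    exact ⟨{ toFun := fun X => ⟨e ⟨X.1, ((hmem _).1 X.2).1⟩, hk X⟩
             invFun := fun k => ⟨(e.symm k.1).1, hk2 k⟩
             left_inv := fun X => by
               apply Subtype.ext
               simp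
             right_inv := fun k => by
               apply Subtype.ext
               simp
             map_rel_iff' := by
               intro X Y
               change e _ ≤ e _ ↔ _
               rw [e.le_iff_le]
               exact Iff.rfl }⟩
  · intro x hx y hy hxy
    obtain ⟨hx1, hx2⟩ := hU x hx
    obtain ⟨hy1, hy2⟩ := hU y hy
    obtain ⟨S, hS, h1⟩ := hs x hx1 y hy1 hxy
    by_cases hiS : i ∈ S
    · obtain ⟨S', hS', rfl⟩ := hdel S hS hiS
      refine ⟨S', hS', ?_⟩
      simpa [hx2, hy2] using h1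
    · exact ⟨S, (hmem S).2 ⟨hS, hiS⟩, h1⟩
  · intro x hx
    obtain ⟨hx1, hx2⟩ := hU x hx
    have h1 := hl x hx1
    rw [hfr x hx2, hcA] at h1
    omega

/-- The union of two halves of a power set is a power set. -/
theorem powerset_of_halves {A₀ : Finset (Finset α)} {i : α} (hdec : A = A₀ ∪ A₀.image (insert i))
    (h0 : A₀ = (A₀.sup id).powerset) : A = (A.sup id).powerset := by
  have h1 : A = (insert i (A₀.sup id)).powerset := by
    rw [Finset.powerset_insert, ← h0]
    exact hdec
  have h2 : A.sup id = insert i (A₀.sup id) := by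
    apply le_antisymm
    · refine Finset.sup_le fun X hX => ?_
      rw [h1, Finset.mem_powerset] at hX
      exact hX
    · have h3 : insert i (A₀.sup id) ∈ A := by
        rw [h1]
        exact Finset.mem_powerset_self _
      exact Finset.le_sup (f := id) h3
  rw [h2]
  exact h1

/-- The one element lattice. -/
theorem powerset_of_subsingleton {L : Type u} [PartialOrder L] [Subsingleton L] [Nonempty L]
    (e : {X // X ∈ A} ≃o L) (hl : Low A) : A = (A.sup id).powerset := by
  have h1 : A.card = 1 := by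
    have h3 : Subsingleton {X // X ∈ A} := e.toEquiv.subsingleton
    have h4 : Nonempty {X // X ∈ A} := e.toEquiv.nonempty
    have h5 := Nat.card_unique (α := {X // X ∈ A})
    simpa using h5
  obtain ⟨X, rfl⟩ := Finset.card_eq_one.1 h1
  have h2 : X = ∅ := by
    by_contra h3
    obtain ⟨i, hi⟩ := Finset.nonempty_iff_ne_empty.2 h3
    have h4 := hl i (Finset.mem_sup.2 ⟨X, Finset.mem_singleton_self _, hi⟩)
    rw [Finset.filter_true_of_mem (by simpa using hi)] at h4
    simp at h4
  subst h2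
  simp

/-- Poonen's strengthening for the subgroup lattices of finite solvable groups. -/
theorem poonen_solvable : ∀ (n : ℕ) (G : Type u) [Group G] [Finite G], Nat.card G = n →
    Group.IsSolvable G → ∀ (α : Type w) [DecidableEq α] (A : Finset (Finset α)),
      (∀ X ∈ A, ∀ Y ∈ A, X ∪ Y ∈ A) → Nonempty ({X // X ∈ A} ≃o Subgroup G) → Sep A → Low A →
      A = (A.sup id).powerset := by
  intro n
  induction n using Nat.strong_induction_on with
  | _ n ih =>
    rintro G _ _ hn hs α _ A hA ⟨e⟩ hsep hlow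
    rcases subsingleton_or_nontrivial G with hG | hG
    · exact powerset_of_subsingleton e hlow
    · obtain ⟨M, N, -, -, h⟩ := pair_solvable hs hG
      obtain ⟨i, A₀, h1, ⟨e'⟩, h3, h4, h5⟩ := h.step hA e hsep hlow
      have hM : M ≠ ⊤ := fun h6 => h.nle (h6 ▸ le_top)
      have hMs : Group.IsSolvable M := by infer_instance
      have hMc : Nat.card M < n := by
        rw [← hn]
        exact lt_of_le_of_ne (Subgroup.card_le_card_group M)
          (fun h6 => hM (Subgroup.eq_top_of_card_eq M h6))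
      exact powerset_of_halves h5 (ih _ hMc M rfl hMs α A₀ h1
        ⟨e'.trans (Subgroup.MapSubtype.orderIso M).symm⟩ h3 h4)

end Pool.Agent.H683UC
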