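import Pool.Agent.H683UC.Poonen

set_option autoImplicit false

/-! # Frankl's and Poonen's conjectures from a pair of elements of a partially ordered set -/

namespace Pool.Agent.H683UC

open Finset

universe u w

/-- `z` is not below `m`, each element above `m` is above `z`, at least half of the elements are not
below `m`, and if exactly half are, then each element not below `m` is the least upper bound of
`z` and an element below `m`. -/
structure PPair {P : Type*} [PartialOrder P] (m z : P) : Prop where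
  nle : ¬ z ≤ m
  cov : ∀ k, m < k → z ≤ k
  le : Nat.card {k : P // k ≤ m} ≤ Nat.card {k : P // ¬ k ≤ m}
  eq : Nat.card {k : P // ¬ k ≤ m} ≤ Nat.card {k : P // k ≤ m} →
    ∀ k, ¬ k ≤ m → ∃ h ≤ m, IsLUB {h, z} k

variable {P : Type u} [PartialOrder P] {m z : P} {α : Type w} [DecidableEq α]
  {A : Finset (Finset α)}

theorem iso_lub (hA : ∀ X ∈ A, ∀ Y ∈ A, X ∪ Y ∈ A) (e : {X // X ∈ A} ≃o P)
    (X Y : {X // X ∈ A}) : IsLUB {e X, e Y} (e ⟨X.1 ∪ Y.1, hA _ X.2 _ Y.2⟩) := by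
  constructor
  · rintro k (rfl | rfl)
    · exact e.monotone (show X.1 ⊆ X.1 ∪ Y.1 from Finset.subset_union_left)
    · exact e.monotone (show Y.1 ⊆ X.1 ∪ Y.1 from Finset.subset_union_right)
  · intro k hk
    rw [← e.le_symm_apply]
    have h1 : X ≤ e.symm k := (e.le_symm_apply).2 (hk (Set.mem_insert _ _))
    have h2 : Y ≤ e.symm k := (e.le_symm_apply).2 (hk (Set.mem_insert_of_mem _ rfl))
    exact Finset.union_subset h1 h2

theorem PPair.exists_elt (h : PPair m z) (hA : ∀ X ∈ A, ∀ Y ∈ A, X ∪ Y ∈ A)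
    (e : {X // X ∈ A} ≃o P) :
    ∃ i : α, ∀ X : {X // X ∈ A}, i ∈ X.1 ↔ ¬ e X ≤ m := by
  obtain ⟨Xm, hXm⟩ : ∃ Xm, e Xm = m := e.surjective m
  obtain ⟨Xz, hXz⟩ : ∃ Xz, e Xz = z := e.surjective z
  have h1 : ¬ Xz.1 ⊆ Xm.1 := by
    intro h1
    have h2 : Xz ≤ Xm := h1
    have h3 := e.monotone h2
    rw [hXm, hXz] at h3
    exact h.nle h3
  obtain ⟨i, hi, hi'⟩ := Finset.not_subset.1 h1
  refine ⟨i, fun X => ⟨fun hiX hle => ?_, fun hle => ?_⟩⟩
  · rw [← hXm] at hle
    have h2 : X ≤ Xm := (e.le_iff_le).1 hle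
    exact hi' (h2 hiX)
  · let Y : {X // X ∈ A} := ⟨X.1 ∪ Xm.1, hA _ X.2 _ Xm.2⟩
    have h3 : e X ≤ e Y := e.monotone (show X.1 ⊆ X.1 ∪ Xm.1 from Finset.subset_union_left)
    have h4 : m ≤ e Y := by
      rw [← hXm]
      exact e.monotone (show Xm.1 ⊆ X.1 ∪ Xm.1 from Finset.subset_union_right)
    have h4' : m < e Y := lt_of_le_of_ne h4 fun h5 => hle (h5 ▸ h3)
    have h5 : e Xz ≤ e Y := by
      rw [hXz]
      exact h.cov _ h4'
    have h6 : Xz.1 ⊆ X.1 ∪ Xm.1 := (e.le_iff_le).1 h5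
    rcases Finset.mem_union.1 (h6 hi) with h7 | h7
    · exact h7
    · exact absurd h7 hi'

theorem pcard_split [Finite P] (m : P) :
    Nat.card P = Nat.card {k : P // k ≤ m} + Nat.card {k : P // ¬ k ≤ m} := by
  classical
  rw [← Nat.card_sum]
  exact Nat.card_congr (Equiv.sumCompl (fun k : P => k ≤ m)).symm

omit [DecidableEq α] in
theorem pcard_family (e : {X // X ∈ A} ≃o P) : A.card = Nat.card P := by
  rw [← Nat.card_congr e.toEquiv]
  simp

theorem pcard_filter (e : {X // X ∈ A} ≃o P) {i : α} {Q : P → Prop}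
    (hi : ∀ X : {X // X ∈ A}, i ∈ X.1 ↔ Q (e X)) :
    (A.filter fun X => i ∈ X).card = Nat.card {k : P // Q k} := by
  have h1 : (A.filter fun X => i ∈ X).card = Nat.card {X // X ∈ A.filter fun X => i ∈ X} :=
    (Nat.card_eq_fintype_card.trans (Fintype.card_coe _)).symm
  rw [h1]
  refine Nat.card_congr ⟨fun X => ⟨e ⟨X.1, (Finset.mem_filter.1 X.2).1⟩,
      (hi ⟨X.1, _⟩).1 (Finset.mem_filter.1 X.2).2⟩,
    fun k => ⟨(e.symm k.1).1, Finset.mem_filter.2 ⟨(e.symm k.1).2, (hi _).2 (by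
      rw [OrderIso.apply_symm_apply]; exact k.2)⟩⟩, fun X => ?_, fun k => ?_⟩
  · apply Subtype.ext
    simp
  · apply Subtype.ext
    simp

/-- Frankl's conjecture for union-closed families whose inclusion order has a pair. -/
theorem PPair.frankl [Finite P] (h : PPair m z) (hA : ∀ X ∈ A, ∀ Y ∈ A, X ∪ Y ∈ A)
    (e : {X // X ∈ A} ≃o P) : ∃ i : α, A.card ≤ 2 * (A.filter fun X => i ∈ X).card := by
  obtain ⟨i, hi⟩ := h.exists_elt hA e
  refine ⟨i, ?_⟩
  rw [pcard_family e, pcard_filter (Q := fun k => ¬ k ≤ m) e hi]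
  have h1 := pcard_split m
  have h2 := h.le
  omega

theorem PPair.step [Finite P] (h : PPair m z) (hA : ∀ X ∈ A, ∀ Y ∈ A, X ∪ Y ∈ A)
    (e : {X // X ∈ A} ≃o P) (hs : Sep A) (hl : Low A) :
    ∃ (i : α) (A₀ : Finset (Finset α)), (∀ X ∈ A₀, ∀ Y ∈ A₀, X ∪ Y ∈ A₀) ∧
      Nonempty ({X // X ∈ A₀} ≃o {k : P // k ≤ m}) ∧ Sep A₀ ∧ Low A₀ ∧
      A = A₀ ∪ A₀.image (insert i) := by
  obtain ⟨i, hi⟩ := h.exists_elt hA e
  set Xz : {X // X ∈ A} := e.symm z with hXz
  have hez : e Xz = z := e.apply_symm_apply z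
  have hiz : i ∈ Xz.1 := (hi Xz).2 (by rw [hez]; exact h.nle)
  have hiU : i ∈ A.sup id := Finset.mem_sup.2 ⟨Xz.1, Xz.2, hiz⟩
  have hci := pcard_filter (Q := fun k => ¬ k ≤ m) e hi
  have hc := pcard_family e
  have hsp := pcard_split (P := P) m
  have hle := h.le
  have hlow := hl i hiU
  have hcard : A.card = 2 * (A.filter fun X => i ∈ X).card := by omega
  have hsurj : ∀ k, ¬ k ≤ m → ∃ k' ≤ m, IsLUB {k', z} k := h.eq (by omega)
  -- the member of `z` is a singleton
  have hsing : Xz.1 = {i} := by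
    rw [Finset.eq_singleton_iff_unique_mem]
    refine ⟨hiz, fun j hj => ?_⟩
    have hjU : j ∈ A.sup id := Finset.mem_sup.2 ⟨Xz.1, Xz.2, hj⟩
    have hsub : (A.filter fun X => i ∈ X) ⊆ (A.filter fun X => j ∈ X) := by
      intro X hX
      rw [Finset.mem_filter] at hX ⊢
      refine ⟨hX.1, ?_⟩
      obtain ⟨k', -, hk'⟩ := hsurj _ ((hi ⟨X, hX.1⟩).1 hX.2)
      have h1 : z ≤ e ⟨X, hX.1⟩ := hk'.1 (Set.mem_insert_of_mem _ rfl)
      rw [← hez] at h1
      exact (e.le_iff_le.1 h1) hj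
    have heq : (A.filter fun X => i ∈ X) = (A.filter fun X => j ∈ X) := by
      apply Finset.eq_of_subset_of_card_le hsub
      have := hl j hjU
      omega
    by_contra hne
    obtain ⟨S, hS, h1⟩ := hs i hiU j hjU (Ne.symm hne)
    have h2 : i ∈ S ↔ j ∈ S := by
      have h3 : S ∈ (A.filter fun X => i ∈ X) ↔ S ∈ (A.filter fun X => j ∈ X) := by rw [heq]
      rw [Finset.mem_filter, Finset.mem_filter] at h3
      exact ⟨fun h4 => (h3.1 ⟨hS, h4⟩).2, fun h4 => (h3.2 ⟨hS, h4⟩).2⟩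
    rcases h1 with ⟨h1, h3⟩ | ⟨h1, h3⟩
    · exact h3 (h2.1 h1)
    · exact h3 (h2.2 h1)
  set A₀ : Finset (Finset α) := A.filter fun X => i ∉ X with hA₀
  have hmem : ∀ X, X ∈ A₀ ↔ X ∈ A ∧ i ∉ X := fun X => by rw [hA₀, Finset.mem_filter]
  have hins : ∀ X ∈ A₀, insert i X ∈ A := by
    intro X hX
    have h1 := hA X ((hmem X).1 hX).1 Xz.1 Xz.2
    rw [hsing, Finset.union_comm] at h1
    exact h1
  have hdel : ∀ X ∈ A, i ∈ X → ∃ X' ∈ A₀, insert i X' = X := by
    intro X hX hiX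
    obtain ⟨k', hk1, hk'⟩ := hsurj _ ((hi ⟨X, hX⟩).1 hiX)
    set X' : {X // X ∈ A} := e.symm k' with hX'
    have heX' : e X' = k' := e.apply_symm_apply k'
    have h1 := iso_lub hA e X' Xz
    rw [heX', hez] at h1
    have h2 : X'.1 ∪ Xz.1 = X := congrArg Subtype.val (e.injective (h1.unique hk'))
    refine ⟨X'.1, (hmem _).2 ⟨X'.2, fun h3 => ?_⟩, ?_⟩
    · exact ((hi X').1 h3) (heX' ▸ hk1)
    · rw [← h2, hsing, Finset.union_comm]
      rfl
  have hdec : A = A₀ ∪ A₀.image (insert i) := by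
    ext X
    rw [Finset.mem_union, Finset.mem_image]
    constructor
    · intro hX
      by_cases h1 : i ∈ X
      · exact Or.inr (hdel X hX h1)
      · exact Or.inl ((hmem X).2 ⟨hX, h1⟩)
    · rintro (hX | ⟨X', hX', rfl⟩)
      · exact ((hmem X).1 hX).1
      · exact hins X' hX'
  have hinj : Set.InjOn (insert i) (A₀ : Set (Finset α)) := by
    intro X hX Y hY hXY
    have h1 := ((hmem X).1 hX).2
    have h2 := ((hmem Y).1 hY).2
    have h3 := congrArg (fun S => Finset.erase S i) hXY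
    simp only [Finset.erase_insert h1, Finset.erase_insert h2] at h3
    exact h3
  have hdisj : Disjoint A₀ (A₀.image (insert i)) := by
    rw [Finset.disjoint_left]
    intro X hX hX2
    obtain ⟨X', -, rfl⟩ := Finset.mem_image.1 hX2
    exact ((hmem _).1 hX).2 (Finset.mem_insert_self _ _)
  have hcA : A.card = 2 * A₀.card := by
    rw [hdec, Finset.card_union_of_disjoint hdisj, Finset.card_image_of_injOn hinj]
    omega
  have hfr : ∀ x, x ≠ i → (A.filter fun X => x ∈ X).card = 2 * (A₀.filter fun X => x ∈ X).card := by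
    intro x hx
    have h1 : (A.filter fun X => x ∈ X) = (A₀.filter fun X => x ∈ X) ∪
        (A₀.filter fun X => x ∈ X).image (insert i) := by
      rw [hdec, Finset.filter_union]
      congr 1
      ext X
      rw [Finset.mem_filter, Finset.mem_image, Finset.mem_image]
      constructor
      · rintro ⟨⟨X', hX', rfl⟩, hX2⟩
        exact ⟨X', Finset.mem_filter.2 ⟨hX', (Finset.mem_insert.1 hX2).resolve_left hx⟩, rfl⟩
      · rintro ⟨X', hX', rfl⟩
        rw [Finset.mem_filter] at hX'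
        exact ⟨⟨X', hX'.1, rfl⟩, Finset.mem_insert_of_mem hX'.2⟩
    have h2 : Disjoint (A₀.filter fun X => x ∈ X) ((A₀.filter fun X => x ∈ X).image (insert i)) :=
      Disjoint.mono (Finset.filter_subset _ _) (Finset.image_subset_image (Finset.filter_subset _ _))
        hdisj
    rw [h1, Finset.card_union_of_disjoint h2, Finset.card_image_of_injOn
      (hinj.mono (by exact_mod_cast Finset.filter_subset _ _))]
    omega
  have hU : ∀ x ∈ A₀.sup id, x ∈ A.sup id ∧ x ≠ i := by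
    intro x hx
    obtain ⟨X, hX, hxX⟩ := Finset.mem_sup.1 hx
    refine ⟨Finset.mem_sup.2 ⟨X, ((hmem X).1 hX).1, hxX⟩, ?_⟩
    rintro rfl
    exact ((hmem X).1 hX).2 hxX
  refine ⟨i, A₀, ?_, ?_, ?_, ?_, hdec⟩
  · intro X hX Y hY
    rw [hmem] at hX hY ⊢
    refine ⟨hA _ hX.1 _ hY.1, ?_⟩
    rw [Finset.mem_union]
    exact fun h1 => h1.elim hX.2 hY.2
  · have hk : ∀ X : {X // X ∈ A₀}, e ⟨X.1, ((hmem _).1 X.2).1⟩ ≤ m := by
      intro X
      by_contra h1
      exact ((hmem _).1 X.2).2 ((hi _).2 h1)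
    have hk2 : ∀ k : {k : P // k ≤ m}, (e.symm k.1).1 ∈ A₀ := by
      intro k
      refine (hmem _).2 ⟨(e.symm k.1).2, fun h1 => ?_⟩
      have h2 := (hi (e.symm k.1)).1 h1
      rw [e.apply_symm_apply] at h2
      exact h2 k.2
    exact ⟨{ toFun := fun X => ⟨e ⟨X.1, ((hmem _).1 X.2).1⟩, hk X⟩
             invFun := fun k => ⟨(e.symm k.1).1, hk2 k⟩
             left_inv := fun X => by
               apply Subtype.ext
               simp
             right_inv := fun k => by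
               apply Subtype.ext
               simp
             map_rel_iff' := by
               intro X Y
               change e _ ≤ e _ ↔ _
               rw [e.le_iff_le]
               exact Iff.rfl }⟩
  · intro x hx y hy hxy
    obtain ⟨hx1, hx2⟩ := hU x hx
    obtain ⟨hy1, hy2⟩ := hU y hy
    obtain ⟨S, hS, h1⟩ := hs x hx1 y hy1 hxy
    by_cases hiS : i ∈ S
    · obtain ⟨S', hS', rfl⟩ := hdel S hS hiS
      refine ⟨S', hS', ?_⟩
      simpa [hx2, hy2] using h1
    · exact ⟨S, (hmem S).2 ⟨hS, hiS⟩, h1⟩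
  · intro x hx
    obtain ⟨hx1, hx2⟩ := hU x hx
    have h1 := hl x hx1
    rw [hfr x hx2, hcA] at h1
    omega

end Pool.Agent.H683UC
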