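import Mathlib

set_option autoImplicit false

/-! # Subnormal subgroups inside an ambient group -/

namespace Pool.Agent.H683UC

open Subgroup

universe u

variable {G : Type u} [Group G] {A B C D H J K M N T V W : Subgroup G}

/-- the conjugate subgroup -/
def cj (g : G) (H : Subgroup G) : Subgroup G := H.map (MulAut.conj g).toMonoidHom

theorem mem_cj {g x : G} : x ∈ cj g H ↔ g⁻¹ * x * g ∈ H := by
  unfold cj
  rw [mem_map]
  constructor
  · rintro ⟨y, hy, rfl⟩
    have e1 : g⁻¹ * ((MulAut.conj g).toMonoidHom y) * g = y := by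
      simp [MulAut.conj_apply]
      group
    rw [e1]
    exact hy
  · intro h
    refine ⟨_, h, ?_⟩
    simp [MulAut.conj_apply]
    group

theorem cj_mono {g : G} (h : A ≤ B) : cj g A ≤ cj g B := map_mono h

theorem cj_cj (g h : G) : cj g (cj h H) = cj (g * h) H := by
  ext x
  rw [mem_cj, mem_cj, mem_cj]
  have e1 : h⁻¹ * (g⁻¹ * x * g) * h = (g * h)⁻¹ * x * (g * h) := by group
  rw [e1]

theorem cj_one : cj (1 : G) H = H := by
  ext x
  rw [mem_cj]
  simp

theorem cj_bot {g : G} : cj g (⊥ : Subgroup G) = ⊥ := map_bot _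

theorem cj_le_iff {g : G} : cj g A ≤ B ↔ A ≤ cj g⁻¹ B := by
  constructor
  · intro h
    have h1 := cj_mono (g := g⁻¹) h
    rwa [cj_cj, inv_mul_cancel, cj_one] at h1
  · intro h
    have h1 := cj_mono (g := g) h
    rwa [cj_cj, mul_inv_cancel, cj_one] at h1

theorem cj_inj {g : G} (h : cj g A = cj g B) : A = B := by
  have h1 := congrArg (cj g⁻¹) h
  rwa [cj_cj, cj_cj, inv_mul_cancel, cj_one, cj_one] at h1

theorem cj_ne_bot {g : G} (h : H ≠ ⊥) : cj g H ≠ ⊥ := fun h1 => h (cj_inj (h1.trans cj_bot.symm))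

theorem mem_norm {g : G} : g ∈ normalizer (H : Set G) ↔ cj g H = H := mem_normalizer_iff_map_conj_eq

theorem cj_eq (h : A ≤ normalizer (H : Set G)) {g : G} (hg : g ∈ A) : cj g H = H :=
  mem_norm.1 (h hg)

theorem norm_le_of_cj (h : ∀ g ∈ A, cj g H = H) : A ≤ normalizer (H : Set G) :=
  fun g hg => mem_norm.2 (h g hg)

theorem norm_inf (h1 : A ≤ normalizer (B : Set G)) (h2 : A ≤ normalizer (C : Set G)) :
    A ≤ normalizer ((B ⊓ C : Subgroup G) : Set G) := by
  rw [le_normalizer_iff] at *
  exact fun h hh k hk => ⟨h1 h hh k hk.1, h2 h hh k hk.2⟩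

theorem norm_sup (h1 : A ≤ normalizer (B : Set G)) (h2 : A ≤ normalizer (C : Set G)) :
    A ≤ normalizer ((B ⊔ C : Subgroup G) : Set G) := by
  refine norm_le_of_cj fun g hg => ?_
  have h3 := cj_eq h1 hg
  have h4 := cj_eq h2 hg
  unfold cj at *
  rw [Subgroup.map_sup, h3, h4]

theorem norm_iSup {ι : Sort*} {f : ι → Subgroup G} (h : ∀ i, A ≤ normalizer (f i : Set G)) :
    A ≤ normalizer ((⨆ i, f i : Subgroup G) : Set G) := by
  refine norm_le_of_cj fun g hg => ?_
  have h3 := fun i => cj_eq (h i) hg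
  unfold cj at *
  rw [Subgroup.map_iSup]
  simp_rw [h3]

theorem norm_of_commute (h : ⁅A, B⁆ = ⊥) : A ≤ normalizer (B : Set G) := by
  rw [commutator_eq_bot_iff_le_centralizer] at h
  rw [le_normalizer_iff]
  intro a ha b hb
  have h1 := mem_centralizer_iff.1 (h ha) b hb
  rw [← h1]
  simpa using hb

/-- `A` is a normal subgroup of `B`. -/
def Nor (A B : Subgroup G) : Prop := A ≤ B ∧ B ≤ normalizer (A : Set G)

/-- `A` is a subnormal subgroup of `B`. -/
def Sn : Subgroup G → Subgroup G → Prop := Relation.ReflTransGen Nor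

theorem Nor.sn (h : Nor A B) : Sn A B := Relation.ReflTransGen.single h

theorem Sn.refl (A : Subgroup G) : Sn A A := Relation.ReflTransGen.refl

theorem Sn.trans (h : Sn A B) (h' : Sn B C) : Sn A C := Relation.ReflTransGen.trans h h'

theorem Sn.le (h : Sn A B) : A ≤ B := by
  induction h with
  | refl => exact le_refl _
  | tail _ h ih => exact ih.trans h.1

theorem Nor.inf (h : Nor A B) (C : Subgroup G) : Nor (A ⊓ C) (B ⊓ C) :=
  ⟨inf_le_inf_right _ h.1, norm_inf (inf_le_left.trans h.2) (inf_le_right.trans le_normalizer)⟩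

theorem Sn.inf (h : Sn A B) (C : Subgroup G) : Sn (A ⊓ C) (B ⊓ C) := by
  induction h with
  | refl => exact Sn.refl _
  | tail _ h ih => exact ih.trans (h.inf C).sn

theorem Sn.mid (h : Sn A B) (h1 : A ≤ C) (h2 : C ≤ B) : Sn A C := by
  have h3 := h.inf C
  rwa [inf_eq_left.2 h1, inf_eq_right.2 h2] at h3

theorem Sn.inf2 (h : Sn A J) (h' : Sn B J) : Sn (A ⊓ B) J := by
  have h1 := h.inf B
  rw [inf_eq_right.2 h'.le] at h1
  exact h1.trans h'

theorem sn_bot (J : Subgroup G) : Sn ⊥ J := by
  refine Nor.sn ⟨bot_le, ?_⟩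
  rw [le_normalizer_iff]
  intro h _ k hk
  rw [mem_bot] at hk ⊢
  rw [hk]
  group

/-- A subnormal subgroup is equal to the group or lies in a proper normal subgroup. -/
theorem Sn.last (h : Sn A J) (hne : A ≠ J) : ∃ K, Sn A K ∧ Nor K J ∧ K ≠ J := by
  induction h with
  | refl => exact absurd rfl hne
  | @tail b c h1 h2 ih =>
    by_cases hbc : b = c
    · subst hbc
      exact ih hne
    · exact ⟨b, h1, h2, hbc⟩

/-- Products with normal subgroups. -/
theorem Sn.sup_normal (h : Sn A J) (hN : Nor N J) : Sn (A ⊔ N) J := by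
  induction h using Relation.ReflTransGen.head_induction_on with
  | refl => rw [sup_eq_left.2 hN.1]; exact Sn.refl _
  | @head X Y h1 h2 ih =>
    have hY : Y ≤ J := Sn.le h2
    refine Sn.trans (Nor.sn ⟨sup_le_sup_right h1.1 _, ?_⟩) ih
    refine sup_le (norm_sup h1.2 (hY.trans hN.2)) (le_trans le_sup_right le_normalizer)

/-- the largest `B`-invariant subgroup of `C` -/
def core (B C : Subgroup G) : Subgroup G := ⨅ b : B, cj (b : G) C

theorem core_le : core B C ≤ C := by
  have h1 := iInf_le (fun b : B => cj (b : G) C) 1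
  simp only [coe_one, cj_one] at h1
  exact h1

theorem mem_core {x : G} : x ∈ core B C ↔ ∀ b ∈ B, x ∈ cj b C := by
  unfold core
  rw [mem_iInf]
  exact ⟨fun h b hb => h ⟨b, hb⟩, fun h b => h b b.2⟩

theorem le_core (h1 : A ≤ C) (h2 : B ≤ normalizer (A : Set G)) : A ≤ core B C := by
  intro x hx
  rw [mem_core]
  intro b hb
  have h3 := cj_eq h2 hb
  rw [← h3] at hx
  exact cj_mono h1 hx

theorem core_norm : B ≤ normalizer (core B C : Set G) := by
  rw [le_normalizer_iff]
  intro h hh k hk
  rw [mem_core] at hk ⊢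
  intro b hb
  have h1 := hk (h⁻¹ * b) (B.mul_mem (B.inv_mem hh) hb)
  rw [mem_cj] at h1 ⊢
  have e1 : b⁻¹ * (h * k * h⁻¹) * b = (h⁻¹ * b)⁻¹ * k * (h⁻¹ * b) := by group
  rwa [e1]

theorem Nor.core (h : Nor C D) : Nor (core B C) (core B D) := by
  constructor
  · intro x hx
    rw [mem_core] at hx ⊢
    exact fun b hb => cj_mono h.1 (hx b hb)
  · rw [le_normalizer_iff]
    intro x hx k hk
    rw [mem_core] at hx hk ⊢
    intro b hb
    have h1 := hx b hb
    have h2 := hk b hb
    rw [mem_cj] at h1 h2 ⊢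
    have h3 := (le_normalizer_iff.1 h.2) _ h1 _ h2
    have e1 : b⁻¹ * (x * k * x⁻¹) * b = b⁻¹ * x * b * (b⁻¹ * k * b) * (b⁻¹ * x * b)⁻¹ := by group
    rwa [e1]

/-- If `A` and `B` are subnormal and `B` normalises `A`, then the product is subnormal. -/
theorem Sn.sup (hA : Sn A J) (hB : Sn B J) (h : B ≤ normalizer (A : Set G)) : Sn (A ⊔ B) J := by
  have key : ∀ D, Sn A D → D ≤ J → Sn (A ⊔ B) (core B D ⊔ B) := by
    intro D hD
    induction hD with
    | refl =>
      intro _
      have h1 : core B A = A := le_antisymm core_le (le_core le_rfl h)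
      rw [h1]
      exact Sn.refl _
    | @tail b c h1 h2 ih =>
      intro hc
      have h3 : Nor (core B b) (core B c ⊔ B) :=
        ⟨h2.core.1.trans le_sup_left, sup_le h2.core.2 core_norm⟩
      have h4 : core B c ⊔ B ≤ J := sup_le (core_le.trans hc) hB.le
      have h5 : Sn B (core B c ⊔ B) := hB.mid le_sup_right h4
      have h6 := h5.sup_normal h3
      rw [sup_comm B] at h6
      exact (ih (h2.1.trans hc)).trans h6
  have h1 := key J hA le_rfl
  have h2 : core B J = J := le_antisymm core_le (le_core le_rfl (hB.le.trans le_normalizer))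
  rw [h2, sup_eq_left.2 hB.le] at h1
  exact h1

/-- Dedekind's law for the subgroups that we need. -/
theorem ded' (h1 : V ⊓ M = ⊥) (h2 : H ≤ M) (h3 : H ≤ normalizer (V : Set G)) :
    (V ⊔ H) ⊓ M = H := by
  apply le_antisymm
  · rintro x ⟨hx1, hx2⟩
    have h4 : x ∈ ((V ⊔ H : Subgroup G) : Set G) := hx1
    rw [coe_mul_of_right_le_normalizer_left V H h3] at h4
    obtain ⟨v, hv, y, hy, rfl⟩ := Set.mem_mul.1 h4
    have h5 : v ∈ V ⊓ M := by
      refine ⟨hv, ?_⟩
      have h6 := M.mul_mem hx2 (M.inv_mem (h2 hy))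
      simpa using h6
    rw [h1, mem_bot] at h5
    rw [h5, one_mul]
    exact hy
  · exact le_inf le_sup_right h2

/-- `T` has no proper nontrivial normal subgroup and is perfect. -/
structure NASimple (T : Subgroup G) : Prop where
  ne : T ≠ ⊥
  simple : ∀ R ≤ T, T ≤ normalizer (R : Set G) → R = ⊥ ∨ R = T
  perfect : ⁅T, T⁆ = T

/-- A subnormal nonabelian simple subgroup lies in each subnormal subgroup or centralises it. -/
theorem NASimple.dichotomy [Finite G] (hT : NASimple T) : ∀ J : Subgroup G, Sn T J → ∀ H, Sn H J →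
    ¬ T ≤ H → ⁅T, H⁆ = ⊥ := by
  intro J
  induction J using WellFoundedLT.induction with
  | ind J ih =>
    intro hTJ H hHJ hTH
    have hne : H ≠ J := fun h1 => hTH (h1 ▸ hTJ.le)
    obtain ⟨H1, h1, h2, h3⟩ := hHJ.last hne
    have hlt : H1 < J := lt_of_le_of_ne h2.1 h3
    by_cases h4 : T ≤ H1
    · exact ih H1 hlt (hTJ.mid h4 h2.1) H h1 hTH
    · have key : ⁅T, H1⁆ = ⊥ := by
        by_cases h5 : T = J
        · subst h5
          rcases hT.simple H1 h2.1 h2.2 with h6 | h6
          · rw [h6]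
            exact commutator_bot_right T
          · exact absurd h6 h3
        · obtain ⟨M1, h6, h7, h8⟩ := hTJ.last h5
          have hlt2 : M1 < J := lt_of_le_of_ne h7.1 h8
          have h9 : Sn (H1 ⊓ M1) M1 := by
            have h10 := (h2.inf M1).sn
            rwa [inf_eq_right.2 h7.1] at h10
          have h10 := ih M1 hlt2 h6 (H1 ⊓ M1) h9 (fun h11 => h4 (h11.trans inf_le_left))
          have h11 : ⁅T, H1⁆ ≤ H1 ⊓ M1 := by
            rw [commutator_le]
            intro g hg h hh
            rw [commutatorElement_def]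
            refine ⟨H1.mul_mem ?_ (H1.inv_mem hh), ?_⟩
            · exact (le_normalizer_iff.1 h2.2) g (hTJ.le hg) h hh
            · have h12 := (le_normalizer_iff.1 h7.2) h (h2.1 hh) g⁻¹ (M1.inv_mem (h6.le hg))
              have h13 := M1.mul_mem (h6.le hg) h12
              have e1 : g * h * g⁻¹ * h⁻¹ = g * (h * g⁻¹ * h⁻¹) := by group
              rwa [e1]
          have h12 : ⁅⁅T, H1⁆, T⁆ = ⊥ := by
            have h14 : ⁅H1 ⊓ M1, T⁆ = ⊥ := by
              rw [commutator_comm]
              exact h10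
            rw [eq_bot_iff, ← h14]
            exact commutator_mono h11 le_rfl
          have h13 := commutator_commutator_eq_bot_of_rotate (H₁ := T) (H₂ := T) (H₃ := H1) h12
            (by rw [commutator_comm H1 T]; exact h12)
          rw [hT.perfect] at h13
          exact h13
      rw [eq_bot_iff, ← key]
      exact commutator_mono le_rfl h1.le

end Pool.Agent.H683UC
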