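import Pool.Agent.H683UC.Sub

set_option autoImplicit false

/-! # Minimal invariant subgroups and subnormal subgroups -/

namespace Pool.Agent.H683UC

open Subgroup

universe u

variable {G : Type u} [Group G] {A B C D H J K M N T V W : Subgroup G}

/-- `V` is a minimal nontrivial `H`-invariant subgroup. -/
structure MinInv (H V : Subgroup G) : Prop where
  ne : V ≠ ⊥
  inv : H ≤ normalizer (V : Set G)
  min : ∀ R ≤ V, R ≠ ⊥ → H ≤ normalizer (R : Set G) → R = V

theorem exists_minInv [Finite G] (h0 : W ≠ ⊥) (h1 : H ≤ normalizer (W : Set G)) :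
    ∃ V ≤ W, MinInv H V := by
  obtain ⟨V, ⟨h2, h3, h4⟩, h5⟩ := WellFounded.has_min (wellFounded_lt (α := Subgroup G))
    {V | V ≤ W ∧ V ≠ ⊥ ∧ H ≤ normalizer (V : Set G)} ⟨W, le_rfl, h0, h1⟩
  refine ⟨V, h2, h3, h4, fun R hR hR0 hRn => ?_⟩
  by_contra hne
  exact h5 R ⟨hR.trans h2, hR0, hRn⟩ (lt_of_le_of_ne hR hne)

theorem norm_le_of_cj_le (h : ∀ g ∈ A, cj g H ≤ H) : A ≤ normalizer (H : Set G) := by
  rw [le_normalizer_iff]
  intro g hg k hk
  apply h g hg
  rw [mem_cj]
  have e1 : g⁻¹ * (g * k * g⁻¹) * g = k := by group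
  rwa [e1]

theorem norm_cj {g : G} (h1 : cj g H = H) (h2 : H ≤ normalizer (V : Set G)) :
    H ≤ normalizer (cj g V : Set G) := by
  refine norm_le_of_cj fun h hh => ?_
  have h3 : g⁻¹ * h * g ∈ H := by
    rw [← mem_cj, h1]
    exact hh
  have h4 := cj_eq h2 h3
  rw [cj_cj]
  have e1 : h * g = g * (g⁻¹ * h * g) := by group
  rw [e1, ← cj_cj, h4]

theorem cj_inv_eq {g : G} (h1 : cj g H = H) : cj g⁻¹ H = H := by
  have h2 := congrArg (cj g⁻¹) h1
  rw [cj_cj, inv_mul_cancel, cj_one] at h2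
  exact h2.symm

theorem MinInv.cj (h : MinInv H V) {g : G} (hg : cj g H = H) : MinInv H (cj g V) := by
  refine ⟨cj_ne_bot h.ne, norm_cj hg h.inv, fun R hR hR0 hRn => ?_⟩
  have h1 : Pool.Agent.H683UC.cj g⁻¹ R ≤ V := by
    rw [cj_le_iff, inv_inv]
    exact hR
  have h2 := h.min _ h1 (cj_ne_bot hR0) (norm_cj (cj_inv_eq hg) hRn)
  rw [← h2, cj_cj, mul_inv_cancel, cj_one]

/-- A minimal normal subgroup is generated by the minimal `H`-invariant subgroups, for every
subnormal subgroup `H`. -/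
theorem MinInv.soc [Finite G] (hN : MinInv J N) (hH : Sn H J) :
    N ≤ ⨆ V : {V : Subgroup G // V ≤ N ∧ MinInv H V}, V.1 := by
  induction hH using Relation.ReflTransGen.head_induction_on with
  | refl => exact le_iSup (fun V : {V : Subgroup G // V ≤ N ∧ MinInv J V} => V.1) ⟨N, le_rfl, hN⟩
  | @head X Y h1 h2 ih =>
    refine ih.trans (iSup_le fun W => ?_)
    obtain ⟨W, hW, hWm⟩ := W
    change W ≤ _
    set S : Subgroup G := ⨆ V : {V : Subgroup G // V ≤ W ∧ MinInv X V}, V.1 with hS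
    have hSW : S ≤ W := iSup_le fun V => V.2.1
    obtain ⟨V0, h3, h4⟩ := exists_minInv hWm.ne (h1.1.trans hWm.inv)
    have hS0 : S ≠ ⊥ := by
      intro h5
      apply h4.ne
      rw [eq_bot_iff, ← h5]
      exact le_iSup (fun V : {V : Subgroup G // V ≤ W ∧ MinInv X V} => V.1) ⟨V0, h3, h4⟩
    have hSn : Y ≤ normalizer (S : Set G) := by
      refine norm_le_of_cj_le fun g hg => ?_
      rw [cj_le_iff]
      refine iSup_le fun V => ?_
      obtain ⟨V, hV, hVm⟩ := V
      change V ≤ _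
      rw [← cj_le_iff]
      have h5 : Pool.Agent.H683UC.cj g V ≤ W := by
        have h6 := cj_mono (g := g) hV
        rwa [cj_eq hWm.inv hg] at h6
      exact le_iSup (fun V : {V : Subgroup G // V ≤ W ∧ MinInv X V} => V.1)
        ⟨_, h5, hVm.cj (cj_eq h1.2 hg)⟩
    have h5 := hWm.min S hSW hS0 hSn
    rw [← h5]
    refine iSup_le fun V => ?_
    exact le_iSup (fun V : {V : Subgroup G // V ≤ N ∧ MinInv X V} => V.1)
      ⟨V.1, V.2.1.trans hW, V.2.2⟩

theorem nor_of_comm (hc : ⁅N, N⁆ = ⊥) (hV : V ≤ N) : Nor V N := by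
  refine ⟨hV, norm_of_commute ?_⟩
  rw [eq_bot_iff, ← hc]
  exact commutator_mono le_rfl hV

theorem cj_commutator {g : G} : cj g ⁅A, B⁆ = ⁅cj g A, cj g B⁆ := map_commutator _ _ _

/-- A minimal normal subgroup that is not commutative contains a subnormal nonabelian simple
subgroup. -/
theorem MinInv.exists_simple [Finite G] (hN : MinInv J N) (hc : ⁅N, N⁆ ≠ ⊥) :
    ∃ T ≤ N, Nor T N ∧ NASimple T := by
  obtain ⟨T, hTN, hT⟩ := exists_minInv hN.ne (le_normalizer (H := N))
  have hgN : ∀ g ∈ J, Pool.Agent.H683UC.cj g N = N := fun g hg => cj_eq hN.inv hg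
  have hgT : ∀ g ∈ J, MinInv N (Pool.Agent.H683UC.cj g T) := fun g hg => hT.cj (hgN g hg)
  have hgTN : ∀ g ∈ J, Pool.Agent.H683UC.cj g T ≤ N := by
    intro g hg
    have h1 := cj_mono (g := g) hTN
    rwa [hgN g hg] at h1
  have hdich : ∀ g ∈ J, Pool.Agent.H683UC.cj g T = T ∨ ⁅T, Pool.Agent.H683UC.cj g T⁆ = ⊥ := by
    intro g hg
    have hinf : N ≤ normalizer ((T ⊓ Pool.Agent.H683UC.cj g T : Subgroup G) : Set G) :=
      norm_inf hT.inv (hgT g hg).inv
    by_cases h1 : T ⊓ Pool.Agent.H683UC.cj g T = ⊥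
    · right
      rw [eq_bot_iff, ← h1, commutator_le]
      intro t ht s hs
      rw [commutatorElement_def]
      constructor
      · have h2 := (le_normalizer_iff.1 hT.inv) s (hgTN g hg hs) t⁻¹ (T.inv_mem ht)
        have e1 : t * s * t⁻¹ * s⁻¹ = t * (s * t⁻¹ * s⁻¹) := by group
        rw [e1]
        exact T.mul_mem ht h2
      · have h2 := (le_normalizer_iff.1 (hgT g hg).inv) t (hTN ht) s hs
        exact Subgroup.mul_mem _ h2 (Subgroup.inv_mem _ hs)
    · left
      have h2 := hT.min _ inf_le_left h1 hinf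
      have h3 := (hgT g hg).min _ inf_le_right h1 hinf
      exact h3.symm.trans h2
  have hsup : N ≤ ⨆ g : J, Pool.Agent.H683UC.cj (g : G) T := by
    have hle : (⨆ g : J, Pool.Agent.H683UC.cj (g : G) T) ≤ N := iSup_le fun g => hgTN g g.2
    refine (hN.min _ hle ?_ ?_).symm.le
    · intro h1
      apply hT.ne
      rw [eq_bot_iff, ← h1]
      have h2 := le_iSup (fun g : J => Pool.Agent.H683UC.cj (g : G) T) 1
      simp only [coe_one, cj_one] at h2
      exact h2
    · refine norm_le_of_cj_le fun g hg => ?_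
      rw [cj_le_iff]
      refine iSup_le fun x => ?_
      rw [← cj_le_iff, cj_cj]
      exact le_iSup (fun g : J => Pool.Agent.H683UC.cj (g : G) T) ⟨g * x, J.mul_mem hg x.2⟩
  refine ⟨T, hTN, ⟨hTN, hT.inv⟩, hT.ne, ?_, ?_⟩
  · intro R hR hRn
    by_cases h1 : R = ⊥
    · exact Or.inl h1
    · refine Or.inr (hT.min R hR h1 (hsup.trans (iSup_le fun g => ?_)))
      rcases hdich g g.2 with h2 | h2
      · rw [h2]
        exact hRn
      · refine norm_of_commute ?_
        rw [eq_bot_iff, ← h2, commutator_comm T]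
        exact commutator_mono le_rfl hR
  · have hDT : ⁅T, T⁆ ≤ T := commutator_le_self T
    have hDn : N ≤ normalizer ((⁅T, T⁆ : Subgroup G) : Set G) := by
      refine norm_le_of_cj fun g hg => ?_
      rw [cj_commutator, cj_eq hT.inv hg]
    by_cases h1 : ⁅T, T⁆ = ⊥
    · exfalso
      apply hc
      have h2 : ∀ g ∈ J, ⁅T, Pool.Agent.H683UC.cj g T⁆ = ⊥ := by
        intro g hg
        rcases hdich g hg with h3 | h3
        · rw [h3]
          exact h1
        · exact h3
      have h3 : ⁅T, N⁆ = ⊥ := by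
        rw [commutator_comm, commutator_eq_bot_iff_le_centralizer]
        refine hsup.trans (iSup_le fun g => ?_)
        rw [← commutator_eq_bot_iff_le_centralizer, commutator_comm]
        exact h2 g g.2
      rw [commutator_eq_bot_iff_le_centralizer]
      refine hsup.trans (iSup_le fun g => ?_)
      rw [← commutator_eq_bot_iff_le_centralizer]
      have h4 := congrArg (Pool.Agent.H683UC.cj (g : G)) h3
      rw [cj_commutator, hgN g g.2, cj_bot] at h4
      exact h4
    · exact hT.min _ hDT h1 hDn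

end Pool.Agent.H683UC
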