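import Pool.Agent.H683UC.Sub2

set_option autoImplicit false

/-! # The pair in the lattice of subnormal subgroups -/

namespace Pool.Agent.H683UC

open Subgroup

universe u

variable {G : Type u} [Group G] {A B C D H J K M N T V W : Subgroup G}

theorem le_norm_of_bot (V : Subgroup G) : (⊥ : Subgroup G) ≤ normalizer (V : Set G) := bot_le

/-- A minimal nontrivial subgroup is generated by an element of prime order. -/
theorem MinInv.prime [Finite G] {P : Subgroup G} (hP : MinInv ⊥ P) :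
    ∃ (p : ℕ) (x : G), p.Prime ∧ orderOf x = p ∧ zpowers x = P := by
  have h1 : Nat.card P ≠ 1 := fun h2 => hP.ne (Subgroup.card_eq_one.1 h2)
  have hp := Nat.minFac_prime h1
  have := Fact.mk hp
  obtain ⟨x, hx⟩ := exists_prime_orderOf_dvd_card' (G := P) (Nat.card P).minFac (Nat.minFac_dvd _)
  have hx' : orderOf (x : G) = (Nat.card P).minFac := by rw [← hx, Subgroup.orderOf_coe]
  refine ⟨_, (x : G), hp, hx', ?_⟩
  refine hP.min _ (by rw [zpowers_le]; exact x.2) ?_ bot_le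
  rw [Ne, zpowers_eq_bot]
  intro h2
  rw [h2, orderOf_one] at hx'
  exact hp.one_lt.ne hx'

/-- A subgroup generated by an element of prime order is minimal. -/
theorem zpowers_min [Finite G] {p : ℕ} (hp : p.Prime) {w : G} (hw : orderOf w = p) {R : Subgroup G}
    (hR : R ≤ zpowers w) (hR0 : R ≠ ⊥) : R = zpowers w := by
  have h1 : Nat.card R ∣ p := by
    rw [← hw, ← Nat.card_zpowers]
    exact Subgroup.card_dvd_of_le hR
  rcases (Nat.dvd_prime hp).1 h1 with h2 | h2
  · exact absurd (Subgroup.card_eq_one.1 h2) hR0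
  · apply Subgroup.eq_of_le_of_card_ge hR
    rw [Nat.card_zpowers, hw, h2]

/-- In a commutative minimal normal subgroup `N` of `J`: if exactly one minimal subgroup of `N` is
not contained in `M`, then it is `N`. -/
theorem unique_min [Finite G] (hN : MinInv J N) (hc : ⁅N, N⁆ = ⊥) {P : Subgroup G}
    (hP : MinInv ⊥ P) (hPN : P ≤ N) (hPM : ¬ P ≤ M)
    (huniq : ∀ K ≤ N, ¬ K ≤ M → K ⊓ M = ⊥ → K = P) : P = N := by
  refine hN.min P hPN hP.ne ?_
  refine norm_le_of_cj fun g hg => ?_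
  obtain ⟨p, x, hp, hx, hxP⟩ := hP.prime
  have hPM' : P ⊓ M = ⊥ := by
    by_contra h1
    have h2 := hP.min _ inf_le_left h1 bot_le
    exact hPM (inf_eq_left.1 h2)
  have hcP : Pool.Agent.H683UC.cj g P ≤ N := by
    have h1 := cj_mono (g := g) hPN
    rwa [cj_eq hN.inv hg] at h1
  have hcPm : MinInv ⊥ (Pool.Agent.H683UC.cj g P) := hP.cj cj_bot
  by_cases h1 : Pool.Agent.H683UC.cj g P ≤ M
  · exfalso
    set y : G := g * x * g⁻¹ with hy
    have hxP' : x ∈ P := hxP ▸ mem_zpowers x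
    have hyc : y ∈ Pool.Agent.H683UC.cj g P := by
      rw [mem_cj, hy]
      have e1 : g⁻¹ * (g * x * g⁻¹) * g = x := by group
      rwa [e1]
    have hyM : y ∈ M := h1 hyc
    have hyN : y ∈ N := hcP hyc
    have hxN : x ∈ N := hPN hxP'
    have hx1 : x ≠ 1 := by
      rintro rfl
      rw [orderOf_one] at hx
      exact hp.one_lt.ne hx
    have hxM : x ∉ M := by
      intro h2
      have h3 : x ∈ P ⊓ M := ⟨hxP', h2⟩
      rw [hPM', mem_bot] at h3
      exact hx1 h3
    have hcomm : Commute x y := by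
      rw [commutator_eq_bot_iff_le_centralizer] at hc
      exact (mem_centralizer_iff.1 (hc hxN) y hyN).symm
    have hyp : y ^ p = 1 := by
      rw [hy, conj_pow, ← hx, pow_orderOf_eq_one]
      group
    have hw : (x * y) ^ p = 1 := by
      rw [hcomm.mul_pow, hyp, ← hx, pow_orderOf_eq_one, one_mul]
    have hwM : x * y ∉ M := by
      intro h2
      apply hxM
      have h3 := M.mul_mem h2 (M.inv_mem hyM)
      rwa [mul_inv_cancel_right] at h3
    have hw1 : x * y ≠ 1 := fun h2 => hwM (h2 ▸ M.one_mem)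
    have := Fact.mk hp
    have hwo : orderOf (x * y) = p := orderOf_eq_prime hw hw1
    have hKM : ¬ zpowers (x * y) ≤ M := fun h2 => hwM (h2 (mem_zpowers _))
    have hK := huniq (zpowers (x * y)) (by rw [zpowers_le]; exact N.mul_mem hxN hyN) hKM (by
      by_contra h2
      have h3 := zpowers_min hp hwo (R := zpowers (x * y) ⊓ M) inf_le_left h2
      exact hKM (inf_eq_left.1 h3))
    have h3 : x * y ∈ P := hK ▸ mem_zpowers _
    have h4 : y ∈ P := by
      have h5 := P.mul_mem (P.inv_mem hxP') h3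
      rwa [inv_mul_cancel_left] at h5
    have h5 : y ∈ P ⊓ M := ⟨h4, hyM⟩
    rw [hPM', mem_bot] at h5
    apply hx1
    rw [hy] at h5
    have h6 := mul_inv_eq_one.1 h5
    exact mul_eq_left.1 h6
  · refine huniq _ hcP h1 ?_
    by_contra h2
    have h3 := hcPm.min _ inf_le_left h2 bot_le
    exact h1 (inf_eq_left.1 h3)

/-- The subgroups `M` and `z` and the map `H ↦ V H ⊔ H`. -/
theorem subnormal_data [Finite G] (hJ : J ≠ ⊥) :
    ∃ M z : Subgroup G, Sn M J ∧ Sn z J ∧ ¬ z ≤ M ∧ (∀ K, Sn K J → M < K → z ≤ K) ∧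
      ∃ V : Subgroup G → Subgroup G,
        (∀ H, Sn H J → H ≤ M → Sn (V H) J ∧ H ≤ normalizer (V H : Set G) ∧ V H ⊓ M = ⊥ ∧
          V H ≠ ⊥) ∧
        ((∀ K, Sn K J → ¬ K ≤ M → ∃ H, Sn H J ∧ H ≤ M ∧ K = V H ⊔ H) →
          ∀ H, Sn H J → H ≤ M → V H = z) := by
  classical
  obtain ⟨N, hNJ, hN⟩ := exists_minInv hJ (le_normalizer (H := J))
  have hNn : Nor N J := ⟨hNJ, hN.inv⟩
  -- maximal subnormal subgroups that do not contain `z`
  have hmax : ∀ z : Subgroup G, z ≠ ⊥ → ∃ M, Sn M J ∧ ¬ z ≤ M ∧ ∀ K, Sn K J → M < K → z ≤ K := by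
    intro z hz
    obtain ⟨M, ⟨h1, h2⟩, h3⟩ := WellFounded.has_min (wellFounded_gt (α := Subgroup G))
      {K | Sn K J ∧ ¬ z ≤ K} ⟨⊥, sn_bot J, fun h => hz (eq_bot_iff.2 h)⟩
    refine ⟨M, h1, h2, fun K hK hMK => ?_⟩
    by_contra h4
    exact h3 K ⟨hK, h4⟩ hMK
  by_cases hc : ⁅N, N⁆ = ⊥
  · -- the commutative case
    obtain ⟨M, hM1, hM2, hM3⟩ := hmax N hN.ne
    have hV : ∀ H, Sn H J → H ≤ M → ∃ V ≤ N, MinInv H V ∧ ¬ V ≤ M := by
      intro H hH hHM
      by_contra hcon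
      push Not at hcon
      apply hM2
      exact (hN.soc hH).trans (iSup_le fun V => hcon V.1 V.2.1 V.2.2)
    have hsn : ∀ V ≤ N, Sn V J := fun V hV => (nor_of_comm hc hV).sn.trans hNn.sn
    have hVM : ∀ H V, H ≤ M → MinInv H V → ¬ V ≤ M → V ⊓ M = ⊥ := by
      intro H V hHM hVm hVM
      by_contra h1
      have h2 := hVm.min _ inf_le_left h1 (norm_inf hVm.inv (hHM.trans le_normalizer))
      exact hVM (inf_eq_left.1 h2)
    choose! V hV1 hV2 hV3 using hV
    refine ⟨M, N, hM1, hNn.sn, hM2, hM3, V, fun H hH hHM => ⟨hsn _ (hV1 H hH hHM),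
      (hV2 H hH hHM).inv, hVM H _ hHM (hV2 H hH hHM) (hV3 H hH hHM), (hV2 H hH hHM).ne⟩, ?_⟩
    intro hsurj
    have hrec : ∀ K, Sn K J → ¬ K ≤ M → K = V (K ⊓ M) ⊔ (K ⊓ M) := by
      intro K hK hKM
      obtain ⟨H, h1, h2, h3⟩ := hsurj K hK hKM
      have h4 : K ⊓ M = H := by
        rw [h3]
        exact ded' (hVM H _ h2 (hV2 H h1 h2) (hV3 H h1 h2)) h2 (hV2 H h1 h2).inv
      rw [h4]
      exact h3
    have hb := hV2 ⊥ (sn_bot J) bot_le
    have hP : V ⊥ = N := by
      refine unique_min hN hc hb (hV1 ⊥ (sn_bot J) bot_le) (hV3 ⊥ (sn_bot J) bot_le)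
        fun K hK hKM hKM' => ?_
      have h1 := hrec K (hsn K hK) hKM
      rw [hKM', sup_bot_eq] at h1
      exact h1
    intro H hH hHM
    have h1 := hV1 H hH hHM
    rw [← hP] at h1 ⊢
    exact hb.min _ h1 (hV2 H hH hHM).ne bot_le
  · -- the noncommutative case
    obtain ⟨T, hTN, hTn, hT⟩ := hN.exists_simple hc
    obtain ⟨M, hM1, hM2, hM3⟩ := hmax T hT.ne
    have hTJ : Sn T J := hTn.sn.trans hNn.sn
    have hTM : T ⊓ M = ⊥ := by
      have h1 : Sn (T ⊓ M) T := by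
        have h2 := hM1.inf T
        rwa [inf_eq_right.2 hTJ.le, inf_comm] at h2
      obtain ⟨K, h3, h4, h5⟩ := h1.last (fun h6 => hM2 (inf_eq_left.1 h6))
      rcases hT.simple K h4.1 h4.2 with h6 | h6
      · rw [eq_bot_iff, ← h6]
        exact h3.le
      · exact absurd h6 h5
    refine ⟨M, T, hM1, hTJ, hM2, hM3, fun _ => T, fun H hH hHM => ⟨hTJ, ?_, hTM, hT.ne⟩,
      fun _ H _ _ => rfl⟩
    refine norm_of_commute ?_
    rw [commutator_comm]
    exact hT.dichotomy J hTJ H hH (fun h1 => hM2 (h1.trans hHM))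

end Pool.Agent.H683UC
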