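import Pool.Agent.H683UC.Sub3
import Pool.Agent.H683UC.Poset

set_option autoImplicit false

/-! # The union-closed sets conjecture for lattices of subnormal subgroups -/

namespace Pool.Agent.H683UC

open Subgroup

universe u w

variable {G : Type u} [Group G] {J M N : Subgroup G}

theorem ppair_subnormal [Finite G] (hJ : J ≠ ⊥) :
    ∃ m z : {K : Subgroup G // Sn K J}, PPair m z := by
  classical
  obtain ⟨M, z, hM, hz, h1, h2, V, h3, h4⟩ := subnormal_data hJ
  -- the embedding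
  let f : {k : {K : Subgroup G // Sn K J} // k ≤ ⟨M, hM⟩} →
      {k : {K : Subgroup G // Sn K J} // ¬ k ≤ ⟨M, hM⟩} := fun k =>
    ⟨⟨V k.1.1 ⊔ k.1.1, (h3 k.1.1 k.1.2 k.2).1.sup k.1.2 (h3 k.1.1 k.1.2 k.2).2.1⟩, fun h5 => by
      have h6 : V k.1.1 ≤ M := le_sup_left.trans h5
      have h7 := (h3 k.1.1 k.1.2 k.2).2.2.1
      rw [inf_eq_left.2 h6] at h7
      exact (h3 k.1.1 k.1.2 k.2).2.2.2 h7⟩
  have hf : ∀ k, (f k).1.1 ⊓ M = k.1.1 := fun k =>
    ded' (h3 k.1.1 k.1.2 k.2).2.2.1 k.2 (h3 k.1.1 k.1.2 k.2).2.1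
  have hinj : Function.Injective f := by
    intro a b hab
    apply Subtype.ext
    apply Subtype.ext
    rw [← hf a, ← hf b, hab]
  refine ⟨⟨M, hM⟩, ⟨z, hz⟩, h1, fun k hk => h2 k.1 k.2 hk, ?_, fun hcard => ?_⟩
  · exact Nat.card_le_card_of_injective f hinj
  · have hbij := hinj.bijective_of_nat_card_le hcard
    have hsurj : ∀ K, Sn K J → ¬ K ≤ M → ∃ H, Sn H J ∧ H ≤ M ∧ K = V H ⊔ H := by
      intro K hK hKM
      obtain ⟨k, hk⟩ := hbij.2 ⟨⟨K, hK⟩, hKM⟩
      refine ⟨k.1.1, k.1.2, k.2, ?_⟩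
      have h5 := congrArg (fun k => k.1.1) hk
      exact h5.symm
    have hVz := h4 hsurj
    intro k hk
    obtain ⟨H, h5, h6, h7⟩ := hsurj k.1 k.2 hk
    rw [hVz H h5 h6] at h7
    refine ⟨⟨H, h5⟩, h6, ?_, ?_⟩
    · rintro a (rfl | rfl)
      · change H ≤ k.1
        rw [h7]
        exact le_sup_right
      · change z ≤ k.1
        rw [h7]
        exact le_sup_left
    · intro a ha
      change k.1 ≤ a.1
      rw [h7]
      exact sup_le (ha (Set.mem_insert_of_mem _ rfl)) (ha (Set.mem_insert _ _))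

/-- the interval below a subnormal subgroup -/
def lowerIso (hM : Sn M J) :
    {k : {K : Subgroup G // Sn K J} // k ≤ ⟨M, hM⟩} ≃o {K : Subgroup G // Sn K M} where
  toFun k := ⟨k.1.1, k.1.2.mid k.2 hM.le⟩
  invFun k := ⟨⟨k.1, k.2.trans hM⟩, k.2.le⟩
  left_inv _ := rfl
  right_inv _ := rfl
  map_rel_iff' := Iff.rfl

theorem poonen_subnormal [Finite G] : ∀ (J : Subgroup G) (α : Type w) [DecidableEq α]
    (A : Finset (Finset α)), (∀ X ∈ A, ∀ Y ∈ A, X ∪ Y ∈ A) →
      Nonempty ({X // X ∈ A} ≃o {K : Subgroup G // Sn K J}) → Sep A → Low A →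
      A = (A.sup id).powerset := by
  intro J
  induction J using WellFoundedLT.induction with
  | ind J ih =>
    rintro α _ A hA ⟨e⟩ hsep hlow
    by_cases hJ : J = ⊥
    · subst hJ
      have h1 : Subsingleton {K : Subgroup G // Sn K ⊥} :=
        ⟨fun a b => Subtype.ext ((le_bot_iff.1 a.2.le).trans (le_bot_iff.1 b.2.le).symm)⟩
      have h2 : Nonempty {K : Subgroup G // Sn K ⊥} := ⟨⟨⊥, Sn.refl _⟩⟩
      exact powerset_of_subsingleton e hlow
    · obtain ⟨m, z, h⟩ := ppair_subnormal hJ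
      obtain ⟨i, A₀, h1, ⟨e'⟩, h3, h4, h5⟩ := h.step hA e hsep hlow
      have hlt : m.1 < J := lt_of_le_of_ne m.2.le fun h6 => h.nle (by
        change z.1 ≤ m.1
        rw [h6]
        exact z.2.le)
      exact powerset_of_halves h5 (ih m.1 hlt α A₀ h1 ⟨e'.trans (lowerIso m.2)⟩ h3 h4)

theorem isSubnormal_iff_sn {H : Subgroup G} : H.IsSubnormal ↔ Sn H ⊤ := by
  constructor
  · intro h
    induction h with
    | top => exact Sn.refl _
    | step H K h_le _ hN ih =>
      refine Sn.trans (Nor.sn ⟨h_le, ?_⟩) ih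
      rwa [normal_subgroupOf_iff_le_normalizer h_le] at hN
  · intro h
    induction h using Relation.ReflTransGen.head_induction_on with
    | refl => exact IsSubnormal.top
    | @head X Y h1 _ ih =>
      exact IsSubnormal.step X Y h1.1 ih (normal_subgroupOf_of_le_normalizer h1.2)

/-- the lattice of subnormal subgroups -/
def topIso : {K : Subgroup G // K.IsSubnormal} ≃o {K : Subgroup G // Sn K ⊤} where
  toFun k := ⟨k.1, isSubnormal_iff_sn.1 k.2⟩
  invFun k := ⟨k.1, isSubnormal_iff_sn.2 k.2⟩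
  left_inv _ := rfl
  right_inv _ := rfl
  map_rel_iff' := Iff.rfl

end Pool.Agent.H683UC
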